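import Pool.Agent.MP_13199e_lc.Amp.Prog

/-! Amplifier: the ideal weights, candidates and targets, and the programs that compute them. -/

set_option autoImplicit false

namespace Pool.Agent.PP.Amp
open Finset

/-- input maps `a, b`, moves `p i` and their (formal) inverses `q i` -/
structure St (V I : Type) where
  a : V → V
  b : V → V
  p : I → V → V
  q : I → V → V

noncomputable def phi (ρ e : ℝ) : ℝ := tr (2 - 4 / ρ * e)

theorem tr_nonneg (v : ℝ) : 0 ≤ tr v := le_max_right _ _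
theorem tr_le_one (v : ℝ) : tr v ≤ 1 := max_le (min_le_right _ _) zero_le_one
theorem tr_id {v : ℝ} (h0 : 0 ≤ v) (h1 : v ≤ 1) : tr v = v := by
  unfold tr; rw [min_eq_left h1, max_eq_left h0]
theorem phi_one {ρ e : ℝ} (hρ : 0 < ρ) (h : e ≤ ρ / 4) : phi ρ e = 1 := by
  have : 4 / ρ * e ≤ 1 := by rw [div_mul_eq_mul_div, div_le_one hρ]; linarith
  unfold phi tr; rw [min_eq_right (by linarith), max_eq_left zero_le_one]
theorem phi_pos {ρ e : ℝ} (hρ : 0 < ρ) (h : 0 < phi ρ e) : e ≤ ρ / 2 := by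
  by_contra hn
  push Not at hn
  have : 2 ≤ 4 / ρ * e := by rw [div_mul_eq_mul_div, le_div_iff₀ hρ]; linarith
  unfold phi tr at h
  rw [max_eq_right (le_trans (min_le_left _ _) (by linarith))] at h
  exact lt_irrefl _ h
theorem phi_cont (ρ : ℝ) : Continuous (phi ρ) := by unfold phi tr; fun_prop

variable {V W I B : Type} [Fintype I]

noncomputable def avg (m : ℝ) (s : St V I) (w : V → ℝ) (y : V → I → ℝ) (c : V) : ℝ :=
  (∑ i, w (s.q i c) * y (s.q i c) i) / max (∑ i, w (s.q i c)) m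

noncomputable def gate (F : (B → ℝ) → ℝ → ℝ → ℝ) (s : St V I) (ty : V → B → ℝ) (x : V → ℝ) (c : V) : ℝ :=
  F (ty c) (x (s.a c)) (x (s.b c))

noncomputable def lev (F : (B → ℝ) → ℝ → ℝ → ℝ) (m ρ : ℝ) (s : St V I) (ty : V → B → ℝ)
    (Y : ℕ → V → I → ℝ) : ℕ → V → ℝ
  | 0 => fun _ => 1
  | j+1 => fun u => lev F m ρ s ty Y j u *
      ∏ i, phi ρ |Y j u i - gate F s ty (avg m s (lev F m ρ s ty Y j) (Y j)) (s.p i u)|

/-- level `j` candidate solution -/
noncomputable def xx (F : (B → ℝ) → ℝ → ℝ → ℝ) (m ρ : ℝ) (s : St V I) (ty : V → B → ℝ)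
    (Y : ℕ → V → I → ℝ) (j : ℕ) : V → ℝ := avg m s (lev F m ρ s ty Y j) (Y j)

/-- target of block `u` -/
noncomputable def tg (F : (B → ℝ) → ℝ → ℝ → ℝ) (m ρ : ℝ) (s : St V I) (ty : V → B → ℝ)
    (Y : ℕ → V → I → ℝ) (j : ℕ) (u : V) (i : I) : ℝ := gate F s ty (xx F m ρ s ty Y j) (s.p i u)

variable (F : (B → ℝ) → ℝ → ℝ → ℝ) (m ρ : ℝ)

theorem prod_mem (f : I → ℝ) : 0 ≤ ∏ i, phi ρ (f i) ∧ ∏ i, phi ρ (f i) ≤ 1 :=
  ⟨Finset.prod_nonneg fun _ _ => tr_nonneg _,
   Finset.prod_le_one (fun _ _ => tr_nonneg _) fun _ _ => tr_le_one _⟩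

theorem lev_nonneg (s : St V I) (ty : V → B → ℝ) (Y : ℕ → V → I → ℝ) : ∀ j u, 0 ≤ lev F m ρ s ty Y j u
  | 0, _ => zero_le_one
  | j+1, u => mul_nonneg (lev_nonneg s ty Y j u) (prod_mem ρ _).1

theorem lev_succ_le (s : St V I) (ty : V → B → ℝ) (Y : ℕ → V → I → ℝ) (j : ℕ) (u : V) :
    lev F m ρ s ty Y (j+1) u ≤ lev F m ρ s ty Y j u :=
  mul_le_of_le_one_right (lev_nonneg F m ρ s ty Y j u) (prod_mem ρ _).2

theorem lev_pos (hρ : 0 < ρ) (s : St V I) (ty : V → B → ℝ) (Y : ℕ → V → I → ℝ) (j : ℕ) (u : V) (i : I)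
    (h : 0 < lev F m ρ s ty Y (j+1) u) : |Y j u i - tg F m ρ s ty Y j u i| ≤ ρ / 2 := by
  apply phi_pos hρ
  by_contra hn
  have h0 : phi ρ |Y j u i - tg F m ρ s ty Y j u i| = 0 := le_antisymm (not_lt.1 hn) (tr_nonneg _)
  have : lev F m ρ s ty Y (j+1) u = 0 := by
    simp only [lev]
    rw [Finset.prod_eq_zero (Finset.mem_univ i) h0, mul_zero]
  linarith

theorem lev_one (hρ : 0 < ρ) (s : St V I) (ty : V → B → ℝ) (Y : ℕ → V → I → ℝ) (D : ℕ) (u : V)
    (h : ∀ j < D, ∀ i, |Y j u i - tg F m ρ s ty Y j u i| ≤ ρ / 4) : ∀ j ≤ D, lev F m ρ s ty Y j u = 1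
  | 0, _ => rfl
  | j+1, hj => by
      simp only [lev]
      rw [lev_one hρ s ty Y D u h j (by omega), one_mul]
      exact Finset.prod_eq_one fun i _ => phi_one hρ (h j (by omega) i)

/-- a map of structures pulls the ideal functions back -/
theorem lev_pull (s : St V I) (s' : St W I) (h : W → V) (ha : ∀ w, h (s'.a w) = s.a (h w))
    (hb : ∀ w, h (s'.b w) = s.b (h w)) (hp : ∀ i w, h (s'.p i w) = s.p i (h w))
    (hq : ∀ i w, h (s'.q i w) = s.q i (h w)) (ty : V → B → ℝ) (Y : ℕ → V → I → ℝ) :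
    ∀ j w, lev F m ρ s' (fun w => ty (h w)) (fun j w => Y j (h w)) j w = lev F m ρ s ty Y j (h w)
  | 0, _ => rfl
  | j+1, w => by
      have ih := lev_pull s s' h ha hb hp hq ty Y j
      simp only [lev, gate, avg, ih, ha, hb, hp, hq]

theorem tg_pull (s : St V I) (s' : St W I) (h : W → V) (ha : ∀ w, h (s'.a w) = s.a (h w))
    (hb : ∀ w, h (s'.b w) = s.b (h w)) (hp : ∀ i w, h (s'.p i w) = s.p i (h w))
    (hq : ∀ i w, h (s'.q i w) = s.q i (h w)) (ty : V → B → ℝ) (Y : ℕ → V → I → ℝ) (j : ℕ) (w : W) (i : I) :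
    tg F m ρ s' (fun w => ty (h w)) (fun j w => Y j (h w)) j w i = tg F m ρ s ty Y j (h w) i := by
  simp only [tg, xx, gate, avg, lev_pull F m ρ s s' h ha hb hp hq, ha, hb, hp, hq]

theorem xx_pull (s : St V I) (s' : St W I) (h : W → V) (ha : ∀ w, h (s'.a w) = s.a (h w))
    (hb : ∀ w, h (s'.b w) = s.b (h w)) (hp : ∀ i w, h (s'.p i w) = s.p i (h w))
    (hq : ∀ i w, h (s'.q i w) = s.q i (h w)) (ty : V → B → ℝ) (Y : ℕ → V → I → ℝ) (j : ℕ) (w : W) :
    xx F m ρ s' (fun w => ty (h w)) (fun j w => Y j (h w)) j w = xx F m ρ s ty Y j (h w) := by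
  simp only [xx, avg, lev_pull F m ρ s s' h ha hb hp hq, hq]

theorem xx_mem (hm : 0 < m) (s : St V I) (ty : V → B → ℝ) (Y : ℕ → V → I → ℝ)
    (hY : ∀ j v i, 0 ≤ Y j v i ∧ Y j v i ≤ 1) (j : ℕ) (c : V) :
    0 ≤ xx F m ρ s ty Y j c ∧ xx F m ρ s ty Y j c ≤ 1 := by
  have h0 := lev_nonneg F m ρ s ty Y j
  have hp : 0 < max (∑ i, lev F m ρ s ty Y j (s.q i c)) m := lt_of_lt_of_le hm (le_max_right _ _)
  refine ⟨div_nonneg (Finset.sum_nonneg fun i _ => mul_nonneg (h0 _) (hY _ _ _).1) hp.le,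
    (div_le_one hp).2 (le_trans (Finset.sum_le_sum fun i _ => ?_) (le_max_left _ _))⟩
  exact mul_le_of_le_one_right (h0 _) (hY _ _ _).2

theorem lev_cont {Z : Type} [TopologicalSpace Z] (hm : 0 < m)
    (hF : Continuous fun z : (B → ℝ) × ℝ × ℝ => F z.1 z.2.1 z.2.2) (s : St V I)
    (ty : Z → V → B → ℝ) (Y : Z → ℕ → V → I → ℝ) (hty : ∀ v β, Continuous fun z => ty z v β)
    (hY : ∀ j v i, Continuous fun z => Y z j v i) :
    ∀ j, (∀ u, Continuous fun z => lev F m ρ s (ty z) (Y z) j u) ∧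
      (∀ u, Continuous fun z => xx F m ρ s (ty z) (Y z) j u) ∧
      ∀ u, Continuous fun z => gate F s (ty z) (xx F m ρ s (ty z) (Y z) j) u := by
  have step : ∀ j, (∀ u, Continuous fun z => lev F m ρ s (ty z) (Y z) j u) →
      (∀ u, Continuous fun z => xx F m ρ s (ty z) (Y z) j u) ∧
      ∀ u, Continuous fun z => gate F s (ty z) (xx F m ρ s (ty z) (Y z) j) u := by
    intro j hj
    have hx : ∀ c, Continuous fun z => xx F m ρ s (ty z) (Y z) j c := by
      intro c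
      simp only [xx, avg]
      refine Continuous.div (continuous_finsetSum _ fun i _ => (hj _).mul (hY _ _ _))
        ((continuous_finsetSum _ fun i _ => hj _).max continuous_const) fun z => ?_
      exact (lt_of_lt_of_le hm (le_max_right _ _)).ne'
    exact ⟨hx, fun u => hF.comp ((continuous_pi fun β => hty _ β).prodMk ((hx _).prodMk (hx _)))⟩
  intro j
  induction j with
  | zero => exact ⟨fun _ => continuous_const, step 0 fun _ => continuous_const⟩
  | succ j ih =>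
    have : ∀ u, Continuous fun z => lev F m ρ s (ty z) (Y z) (j+1) u := fun u =>
      (ih.1 u).mul (continuous_finsetProd _ fun i _ =>
        (phi_cont ρ).comp ((hY j u i).sub (ih.2.2 _)).abs)
    exact ⟨this, step _ this⟩

/-- free structure -/
abbrev Wd (I : Type) : Type := List (Bool ⊕ (I ⊕ I))

def freeSt (I : Type) : St (Wd I) I :=
  ⟨fun w => .inl false :: w, fun w => .inl true :: w, fun i w => .inr (.inl i) :: w,
    fun i w => .inr (.inr i) :: w⟩

def walk (s : St V I) (u : V) : Wd I → V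
  | [] => u
  | .inl false :: w => s.a (walk s u w)
  | .inl true :: w => s.b (walk s u w)
  | .inr (.inl i) :: w => s.p i (walk s u w)
  | .inr (.inr i) :: w => s.q i (walk s u w)

/-- variables of the block program: a walk, then a type bit or an opinion slot -/
abbrev Var (I B : Type) (D : ℕ) : Type := Wd I × (B ⊕ (Fin D × I))

def ext {D : ℕ} (Y : V → Fin D × I → ℝ) (j : ℕ) (u : V) (i : I) : ℝ :=
  if h : j < D then Y u (⟨j, h⟩, i) else 0

/-- what block `u` sees -/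
def view {D : ℕ} (s : St V I) (ty : V → B → ℝ) (Y : V → Fin D × I → ℝ) (u : V) : Var I B D → ℝ
  | (w, .inl β) => ty (walk s u w) β
  | (w, .inr k) => Y (walk s u w) k

omit [Fintype I] in
theorem ext_mem {D : ℕ} {Y : V → Fin D × I → ℝ} (hY : ∀ v k, 0 ≤ Y v k ∧ Y v k ≤ 1) (j : ℕ)
    (u : V) (i : I) : 0 ≤ ext Y j u i ∧ ext Y j u i ≤ 1 := by
  unfold ext; split_ifs
  · exact hY _ _
  · exact ⟨le_rfl, zero_le_one⟩

/-- ONE list of programs computes the targets, the candidates and the errors at every place of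
every instance -/
theorem programs (hm : 0 < m) (hF : Continuous fun z : (B → ℝ) × ℝ × ℝ => F z.1 z.2.1 z.2.2)
    (hF0 : ∀ t r r', 0 ≤ F t r r') (hF1 : ∀ t r r', F t r r' ≤ 1) (D : ℕ) (t : ℝ) (ht : 0 < t) :
    ∃ (e : Fin D × I → Ex (Var I B D)) (eX eH : Fin D → Ex (Var I B D)),
      (∀ k, (e k).ok) ∧ (∀ j, (eX j).ok) ∧ (∀ j, (eH j).ok) ∧
      ∀ (V : Type) (s : St V I) (ty : V → B → ℝ) (Y : V → Fin D × I → ℝ),
        (∀ v β, 0 ≤ ty v β ∧ ty v β ≤ 1) → (∀ v k, 0 ≤ Y v k ∧ Y v k ≤ 1) → ∀ u,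
        (∀ k, |(e k).ev (view s ty Y u) - tg F m ρ s ty (ext Y) k.1 u k.2| ≤ t) ∧
        (∀ j, |(eX j).ev (view s ty Y u) - xx F m ρ s ty (ext Y) j u| ≤ t) ∧
        ∀ j, abs ((eH j).ev (view s ty Y u) -
          |xx F m ρ s ty (ext Y) j u - gate F s ty (xx F m ρ s ty (ext Y) j) u|) ≤ t := by
  have hc := lev_cont F m ρ (Z := Cube (Var I B D)) hm hF (freeSt I)
    (fun z w β => (z (w, .inl β) : ℝ)) (fun z => ext fun w k => (z (w, .inr k) : ℝ))
    (fun v β => by fun_prop) (fun j v i => by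
      unfold ext; by_cases h : j < D
      · simp only [h, dif_pos]; fun_prop
      · simp only [h, dif_neg, not_false_eq_true]; exact continuous_const)
  choose e he using fun k : Fin D × I => good_all ⟨_, (hc k.1).2.2 ((freeSt I).p k.2 [])⟩ t ht
  choose eX hX using fun j : Fin D => good_all ⟨_, (hc j).2.1 []⟩ t ht
  choose eH hH using fun j : Fin D => good_all ⟨_, (((hc j).2.1 []).sub ((hc j).2.2 [])).abs⟩ t ht
  refine ⟨e, eX, eH, fun k => (he k).1, fun j => (hX j).1, fun j => (hH j).1,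
    fun V s ty Y hty hY u => ?_⟩
  let z : Cube (Var I B D) := fun v => match v with
    | (w, .inl β) => ⟨ty (walk s u w) β, hty _ _⟩
    | (w, .inr k) => ⟨Y (walk s u w) k, hY _ _⟩
  have e1 : (fun p => (z p : ℝ)) = view s ty Y u := by
    funext v; rcases v with ⟨w, β | k⟩ <;> rfl
  have px : ∀ j w, xx F m ρ (freeSt I) (fun w β => (z (w, .inl β) : ℝ))
      (ext fun w k => (z (w, .inr k) : ℝ)) j w = xx F m ρ s ty (ext Y) j (walk s u w) := fun j w =>
    xx_pull F m ρ s (freeSt I) (walk s u) (fun _ => rfl) (fun _ => rfl) (fun _ _ => rfl)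
      (fun _ _ => rfl) ty (ext Y) j w
  have pg : ∀ j w, gate F (freeSt I) (fun w β => (z (w, .inl β) : ℝ)) (xx F m ρ (freeSt I)
      (fun w β => (z (w, .inl β) : ℝ)) (ext fun w k => (z (w, .inr k) : ℝ)) j) w
      = gate F s ty (xx F m ρ s ty (ext Y) j) (walk s u w) := fun j w => by
    simp only [gate, px]; rfl
  have hx := xx_mem F m ρ hm s ty (ext Y) (ext_mem hY)
  refine ⟨fun k => ?_, fun j => ?_, fun j => ?_⟩
  · have h1 := (he k).2 z
    simp only [ContinuousMap.coe_mk] at h1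
    rw [e1, pg, tr_id (v := gate F s ty _ _) (hF0 _ _ _) (hF1 _ _ _)] at h1
    exact h1
  · have h1 := (hX j).2 z
    simp only [ContinuousMap.coe_mk] at h1
    rw [e1, px, tr_id (hx _ _).1 (hx _ _).2] at h1
    exact h1
  · have h1 := (hH j).2 z
    simp only [ContinuousMap.coe_mk, Pi.sub_apply] at h1
    have a0 : 0 ≤ gate F s ty (xx F m ρ s ty (ext Y) j) (walk s u []) := hF0 _ _ _
    have a1 : gate F s ty (xx F m ρ s ty (ext Y) j) (walk s u []) ≤ 1 := hF1 _ _ _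
    have a2 := hx j (walk s u [])
    rw [e1, px, pg, tr_id (abs_nonneg _) (abs_le.2 ⟨by linarith [a2.1], by linarith [a2.2]⟩)] at h1
    exact h1

end Pool.Agent.PP.Amp
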