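import Pool.Agent.MP_13199e_lc.Amp.Lev
import Pool.Agent.MP_13199e_lc.Amp.Ideal

/-! Amplifier: the mathematical core. -/

set_option autoImplicit false

namespace Pool.Agent.PP.Amp
open Finset

/-- The structure of a circuit with a family of permutations. -/
def pst {V I : Type} (a b : V → V) (pi : I → Equiv.Perm V) : St V I :=
  ⟨a, b, fun i => (pi i).symm, fun i => pi i⟩

/-- The averaging operator of the permutations contracts mean zero functions. -/
def MixS {V I : Type} [Fintype V] [Fintype I] (pi : I → V → V) (lam2 : ℝ) : Prop :=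
  ∀ (G : V → ℝ) (mu : ℝ), ∑ c, G c = mu * Fintype.card V →
    ∑ c, ((∑ i, G (pi i c)) / Fintype.card I - mu)^2 ≤ lam2 * ∑ c, (G c - mu)^2

theorem core {I B : Type} [Fintype I] [Nonempty I] (F : (B → ℝ) → ℝ → ℝ → ℝ)
    (hF : Continuous fun z : (B → ℝ) × ℝ × ℝ => F z.1 z.2.1 z.2.2)
    (hF0 : ∀ t r r', 0 ≤ F t r r') (hF1 : ∀ t r r', F t r r' ≤ 1)
    (eta d0 lam2 ρ : ℝ) (heta : 0 < eta) (hd0 : 0 < d0) (hρ : 0 < ρ) (hl0 : 0 ≤ lam2)
    (hl : lam2 ≤ eta * d0 / 8) :
    ∃ (D : ℕ) (e : Fin D × I → Ex (Var I B D)) (eX eH : Fin D → Ex (Var I B D)), 0 < D ∧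
      (∀ k, (e k).ok) ∧ (∀ j, (eX j).ok) ∧ (∀ j, (eH j).ok) ∧
      ∀ (V : Type) [Fintype V] (a b : V → V) (pi : I → Equiv.Perm V) (ty : V → B → ℝ)
        (Y : V → Fin D × I → ℝ), (∀ v β, 0 ≤ ty v β ∧ ty v β ≤ 1) →
        (∀ v k, 0 ≤ Y v k ∧ Y v k ≤ 1) → ∃ x : Fin D → V → ℝ, (∀ j c, 0 ≤ x j c ∧ x j c ≤ 1) ∧
        (∀ j c, |(eX j).ev (view (pst a b pi) ty Y c) - x j c| ≤ ρ / 8 ∧
          abs ((eH j).ev (view (pst a b pi) ty Y c) -
            |x j c - F (ty c) (x j (a c)) (x j (b c))|) ≤ ρ / 8) ∧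
        ∀ S : Finset V, MixS (fun i c => pi i c) lam2 → eta * Fintype.card V ≤ S.card →
          (∀ u ∈ S, ∀ k, |Y u k - (e k).ev (view (pst a b pi) ty Y u)| ≤ ρ / 8) →
          ∃ j, ((univ.filter fun c => ρ < |x j c - F (ty c) (x j (a c)) (x j (b c))|).card : ℝ)
            ≤ d0 * Fintype.card V := by
  classical
  obtain ⟨D, hD⟩ := exists_nat_gt (8 / (eta * d0 * ρ))
  have hDr : (0:ℝ) < D := lt_trans (by positivity) hD
  have hD0 : 0 < D := by exact_mod_cast hDr
  have ht : (0:ℝ) < Fintype.card I := by exact_mod_cast Fintype.card_pos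
  set m : ℝ := eta * (Fintype.card I : ℝ) / 2 with hmdef
  have hm : 0 < m := by positivity
  obtain ⟨e, eX, eH, eok, xok, hok, he⟩ :=
    programs (I := I) F m ρ hm hF hF0 hF1 D (ρ / 8) (by positivity)
  refine ⟨D, e, eX, eH, hD0, eok, xok, hok, ?_⟩
  intro V _ a b pi ty Y hty hY
  set s : St V I := pst a b pi with hs
  refine ⟨fun j => xx F m ρ s ty (ext Y) j, fun j => xx_mem F m ρ hm s ty _ (ext_mem hY) j, fun j c =>
    ⟨(he V s ty Y hty hY c).2.1 j, (he V s ty Y hty hY c).2.2 j⟩, fun S hmix hS hrun => ?_⟩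
  have hext := ext_mem hY
  have hone : ∀ u ∈ S, lev F m ρ s ty (ext Y) D u = 1 := by
    intro u hu
    refine lev_one F m ρ hρ s ty (ext Y) D u (fun j hj i => ?_) D le_rfl
    have h1 := hrun u hu (⟨j, hj⟩, i)
    have h2 := (he V s ty Y hty hY u).1 (⟨j, hj⟩, i)
    have h5 : ext Y j u i = Y u (⟨j, hj⟩, i) := by simp [ext, hj]
    rw [h5]
    have := abs_sub_le (Y u (⟨j, hj⟩, i)) ((e (⟨j, hj⟩, i)).ev (view s ty Y u))
      (tg F m ρ s ty (ext Y) j u i)
    simp only at h2
    linarith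
  obtain ⟨j, hj, hb⟩ := levels (C := V) (J := I) D hD0
    (fun j c i => lev F m ρ s ty (ext Y) j (s.q i c)) (fun j c i => ext Y j (s.q i c) i)
    (fun j c => gate F s ty (xx F m ρ s ty (ext Y) j) c) m (Fintype.card I * Fintype.card V) ρ hm hρ
    (fun j c i => lev_nonneg F m ρ s ty _ j _) (fun j c i => lev_succ_le F m ρ s ty _ j _)
    (fun j c i => (hext _ _ _).1) (fun j c i => (hext _ _ _).2)
    (fun j c => hF0 _ _ _) (fun j c => hF1 _ _ _)
    (fun j c i h => by
      have := lev_pos F m ρ hρ s ty (ext Y) j (s.q i c) i h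
      have e1 : s.p i (s.q i c) = c := (pi i).symm_apply_apply c
      simpa only [tg, e1] using this)
    (by simp [lev, mul_comm])
  refine ⟨⟨j, hj⟩, le_trans hb ?_⟩
  have hn0 : (0:ℝ) ≤ Fintype.card V := by positivity
  have h2 : 2 * ((Fintype.card I : ℝ) * Fintype.card V) / (m * ρ * D)
      ≤ d0 / 2 * Fintype.card V := by
    rw [div_lt_iff₀ (by positivity)] at hD
    rw [div_le_iff₀ (by positivity), hmdef]
    have : (0:ℝ) ≤ Fintype.card I * Fintype.card V := by positivity
    nlinarith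
  have h1 : ((univ.filter fun c => ∑ i, lev F m ρ s ty (ext Y) D (s.q i c) < m).card : ℝ)
      ≤ d0 / 2 * Fintype.card V := by
    rcases Nat.eq_zero_or_pos (Fintype.card V) with h0 | h0
    · have : (univ.filter fun c => ∑ i, lev F m ρ s ty (ext Y) D (s.q i c) < m).card
          ≤ Fintype.card V := Finset.card_le_univ _
      rw [h0] at this ⊢
      simp only [Nat.cast_zero, mul_zero]
      exact_mod_cast this
    have hn : (0:ℝ) < Fintype.card V := by exact_mod_cast h0
    let G : V → ℝ := fun c => if c ∈ S then 1 else 0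
    have hG : ∑ c, G c = (S.card / Fintype.card V : ℝ) * Fintype.card V := by
      simp only [G]; rw [Finset.sum_boole]; field_simp; simp
    have hme : eta ≤ (S.card / Fintype.card V : ℝ) := by rw [le_div_iff₀ hn]; exact hS
    have h3 := mix_tail G (fun c => (∑ i, G (pi i c)) / Fintype.card I) _ eta lam2 heta hl0
      (fun c => by simp only [G]; split_ifs <;> norm_num)
      (fun c => by simp only [G]; split_ifs <;> norm_num) hG hme (hmix G _ hG)
    have hsub : (univ.filter fun c => ∑ i, lev F m ρ s ty (ext Y) D (s.q i c) < m) ⊆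
        univ.filter fun c => (∑ i, G (pi i c)) / Fintype.card I < eta / 2 := by
      intro c hc
      simp only [Finset.mem_filter, Finset.mem_univ, true_and] at hc ⊢
      have : ∑ i, G (pi i c) ≤ ∑ i, lev F m ρ s ty (ext Y) D (s.q i c) := by
        refine Finset.sum_le_sum fun i _ => ?_
        simp only [G]; split_ifs with h
        · exact (hone _ h).ge
        · exact lev_nonneg F m ρ s ty _ _ _
      rw [div_lt_iff₀ ht]; rw [hmdef] at hc; linarith
    have h4 : 4 * lam2 / eta ≤ d0 / 2 := by rw [div_le_iff₀ heta]; linarith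
    calc _ ≤ ((univ.filter fun c => (∑ i, G (pi i c)) / Fintype.card I < eta / 2).card : ℝ) := by
          exact_mod_cast Finset.card_le_card hsub
      _ ≤ 4 * lam2 / eta * Fintype.card V := h3
      _ ≤ d0 / 2 * Fintype.card V := mul_le_mul_of_nonneg_right h4 hn0
  linarith

end Pool.Agent.PP.Amp
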