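import Pool.Agent.MP_13199e_lc.Amp.Prog
import Pool.Agent.Lib.helper82.PolyFun

/-! Amplifier: fixed point evaluation of programs in polynomial time. -/

set_option autoImplicit false

namespace Pool.Agent.PP.Amp
open Pool.Agent.PolyT Pool.Agent.H82 N487b59b3

variable {α β P K : Type} [N487b59b3 α] [N487b59b3 β]

theorem div_step (n d : ℕ) (hd : 0 < d) (b : Bool) :
    (2 * n + b.toNat) / d =
      bif ltB (2 * n + b.toNat) ((2 * (n / d) + 1) * d) then 2 * (n / d) else 2 * (n / d) + 1 := by
  have h1 := Nat.div_add_mod n d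
  have h2 := Nat.mod_lt n hd
  have h3 : b.toNat ≤ 1 := Bool.toNat_le b
  generalize n / d = q at *
  generalize n % d = r at *
  cases h : ltB (2 * n + b.toNat) ((2 * q + 1) * d)
  · rw [ltB_false_iff] at h
    rw [cond_false]
    exact Nat.div_eq_of_lt_le h (by nlinarith)
  · rw [ltB_iff] at h
    rw [cond_true]
    exact Nat.div_eq_of_lt_le (by nlinarith) h

/-- One round of long division. -/
def divStep (d : ℕ) (b : Bool) (s : ℕ × ℕ) : ℕ × ℕ :=
  (2 * s.1 + bif b then 1 else 0,
    bif ltB (2 * s.1 + bif b then 1 else 0) ((2 * s.2 + 1) * d) then 2 * s.2 else 2 * s.2 + 1)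

theorem foldr_divStep (d : ℕ) (hd : 0 < d) (l : List Bool) :
    l.foldr (divStep d) (0, 0) = (ofBits l, ofBits l / d) := by
  induction l with
  | nil => simp
  | cons b l ih =>
    rw [List.foldr_cons, ih, ofBits_cons, div_step _ _ hd]
    cases b <;> rfl

@[fun_prop] theorem p_div {f g : α → ℕ} (hf : PolyT.Poly f) (hg : PolyT.Poly g) :
    PolyT.Poly (fun a => f a / g a) := by
  have h1 : PolyT.Poly (fun a => (f a).bits.foldr (divStep (g a - 1 + 1)) (0, 0)) := by
    refine PolyT.Poly.foldr (f := fun a => divStep (g a - 1 + 1)) (by unfold divStep; fun_prop)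
      hf.bits (p_const _) (((Bd.const 3).mul hf.bd).add (Bd.const 1)) fun a n => ?_
    rw [foldr_divStep _ (Nat.add_one_pos _), length_enc_pair]
    have b1 := length_enc_nat_le (ofBits_lt ((f a).bits.drop n))
    have b2 := length_enc_nat_mono (Nat.div_le_self (ofBits ((f a).bits.drop n)) (g a - 1 + 1))
    have b3 : ((f a).bits.drop n).length ≤ (bitEncode (f a)).length := by rw [enc_nat]; simp
    simp only at b1 b2 b3 ⊢
    omega
  refine PolyT.Poly.congr (f := fun a => bif eqB (g a) 0 then 0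
    else ((f a).bits.foldr (divStep (g a - 1 + 1)) (0, 0)).2) (by fun_prop) fun a => ?_
  rw [foldr_divStep _ (Nat.add_one_pos _), ofBits_bits]
  cases h : eqB (g a) 0
  · rw [eqB_false_iff] at h
    rw [cond_false, Nat.sub_add_cancel (Nat.one_le_iff_ne_zero.2 h)]
  · rw [eqB_iff] at h
    simp [h]

@[fun_prop] theorem p_min {f g : α → ℕ} (hf : PolyT.Poly f) (hg : PolyT.Poly g) :
    PolyT.Poly (fun a => min (f a) (g a)) :=
  PolyT.Poly.congr (f := fun a => f a - (f a - g a)) (by fun_prop) fun a => by omega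

/-- The product of a rational number and a natural number, rounded down. -/
def rq (q : ℚ) (n : ℕ) : ℕ := q.num.toNat * n / q.den

@[fun_prop] theorem p_rq {q : α → ℚ} {n : α → ℕ} (hq : PolyT.Poly q) (hn : PolyT.Poly n) :
    PolyT.Poly fun a => rq (q a) (n a) := by
  have h : PolyT.Poly fun a => (((q a).num.toNat, (-(q a).num).toNat), (q a).den) := hq
  exact p_div (h.fst.fst.mul hn) h.snd

theorem rq_spec {q : ℚ} (hq : 0 ≤ q) (n : ℕ) :
    (rq q n : ℝ) ≤ q * n ∧ (q : ℝ) * n < rq q n + 1 := by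
  have hd : (0:ℝ) < q.den := by exact_mod_cast q.den_pos
  have e : ((q.num.toNat : ℕ) : ℝ) = q * q.den := by
    have h1 : ((q.num.toNat : ℕ) : ℤ) = q.num := Int.toNat_of_nonneg (Rat.num_nonneg.2 hq)
    have h2 : ((q.num.toNat : ℕ) : ℝ) = (q.num : ℝ) := by exact_mod_cast h1
    rw [h2]; exact_mod_cast (Rat.mul_den_eq_num q).symm
  have h1 : (rq q n : ℝ) * q.den ≤ q.num.toNat * n := by
    exact_mod_cast Nat.div_mul_le_self _ _
  have h2 : (q.num.toNat * n : ℝ) < (rq q n + 1) * q.den := by
    have := Nat.lt_mul_div_succ (q.num.toNat * n) q.den_pos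
    rw [mul_comm q.den] at this
    exact_mod_cast this
  rw [e] at h1 h2
  exact ⟨le_of_mul_le_mul_right (by linarith) hd, lt_of_mul_lt_mul_right (by linarith) hd.le⟩

theorem rq_close {q : ℚ} (hq : 0 ≤ q) (n : ℕ) : |(rq q n : ℝ) - q * n| ≤ 1 := by
  have := rq_spec hq n
  rw [abs_le]; constructor <;> linarith [this.1, this.2]

theorem le_rq {q : ℚ} (hq : 0 ≤ q) (c n : ℕ) : c ≤ rq q n ↔ (c : ℝ) ≤ q * n := by
  have := rq_spec hq n
  refine ⟨fun h => le_trans (by exact_mod_cast h) this.1, fun h => Nat.lt_succ_iff.1 ?_⟩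
  exact_mod_cast lt_of_le_of_lt h this.2

theorem rq_div {q : ℚ} (hq : 0 ≤ q) (n : ℕ) {M : ℕ} (hM : 0 < M) :
    |(rq q n : ℝ) / M - q * (n / M)| ≤ 1 / M := by
  have hM' : (0:ℝ) < M := by exact_mod_cast hM
  rw [← mul_div_assoc, ← sub_div, abs_div, abs_of_pos hM']
  exact div_le_div_of_nonneg_right (rq_close hq n) hM'.le

theorem rq_one {q : ℚ} (hq : 0 ≤ q) {M : ℕ} (hM : 0 < M) : |(rq q M : ℝ) / M - q| ≤ 1 / M := by
  have hM' : (M:ℝ) ≠ 0 := by exact_mod_cast hM.ne'
  simpa [div_self hM'] using rq_div hq M hM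

/-- Evaluation in multiples of `1 / M`. -/
def evN (M : ℕ) (v : P → ℕ) : Ex P → ℕ
  | .var p => v p
  | .const a => rq a M
  | .scale a e => rq a (evN M v e)
  | .add e f => min (evN M v e + evN M v f) M
  | .sub e f => evN M v e - evN M v f

theorem evN_run {M : ℕ} (hM : 0 < M) {v : P → ℕ} {vw : P → ℝ}
    (hv : ∀ p, |(v p : ℝ) / M - vw p| ≤ 1 / M) :
    ∀ e : Ex P, e.ok → Run (1 / M) vw e (evN M v e / M)
  | .var p, _ => .var p _ (hv p)
  | .const a, h => .const a _ (rq_one h.1 hM)
  | .scale a e, h => .scale a e _ _ (evN_run hM hv e h.2.2) (rq_div h.1 _ hM)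
  | .add e f, h => by
      have hM' : (0:ℝ) < M := by exact_mod_cast hM
      refine .add e f _ _ _ (evN_run hM hv e h.1) (evN_run hM hv f h.2) ?_
      simp only [evN]; push_cast
      rw [← min_div_div_right hM'.le, div_self hM'.ne', add_div, sub_self, abs_zero]
      positivity
  | .sub e f, h => by
      have hM' : (0:ℝ) < M := by exact_mod_cast hM
      refine .sub e f _ _ _ (evN_run hM hv e h.1) (evN_run hM hv f h.2) ?_
      have : ((evN M v e - evN M v f : ℕ) : ℝ) = max ((evN M v e : ℝ) - evN M v f) 0 := by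
        rcases le_total (evN M v f) (evN M v e) with h | h
        · rw [Nat.cast_sub h, max_eq_left (sub_nonneg.2 (by exact_mod_cast h))]
        · rw [Nat.sub_eq_zero_of_le h, max_eq_right (sub_nonpos.2 (by exact_mod_cast h))]; simp
      simp only [evN]
      rw [this, ← max_div_div_right hM'.le, zero_div, sub_div, sub_self, abs_zero]
      positivity

theorem p_evN (M : ℕ) {v : α → P → ℕ} (hv : ∀ p, PolyT.Poly fun a => v a p) :
    ∀ e : Ex P, PolyT.Poly fun a => evN M (v a) e
  | .var p => hv p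
  | .const _ => PolyT.Poly.const _
  | .scale c e => p_rq (PolyT.Poly.const c) (p_evN M hv e)
  | .add e f => p_min ((p_evN M hv e).add (p_evN M hv f)) (PolyT.Poly.const M)
  | .sub e f => (p_evN M hv e).sub (p_evN M hv f)

/-- The output of the first good candidate. -/
def pick {γ : Type} (good : K → Bool) (out : K → γ) (d : γ) : List K → γ
  | [] => d
  | k :: l => bif good k then out k else pick good out d l

theorem pick_spec {γ : Type} (good : K → Bool) (out : K → γ) (d : γ) :
    ∀ l : List K, (∃ k ∈ l, good k = true) → ∃ k, good k = true ∧ pick good out d l = out k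
  | [], h => by simp at h
  | k :: l, h => by
      cases hk : good k
      · obtain ⟨k', h1, h2⟩ := h
        rcases List.mem_cons.1 h1 with rfl | h1
        · rw [hk] at h2; cases h2
        · simpa [pick, hk] using pick_spec good out d l ⟨k', h1, h2⟩
      · exact ⟨k, hk, by simp [pick, hk]⟩

theorem p_pick {good : α → K → Bool} {out : α → K → β} (d : β)
    (hg : ∀ k, PolyT.Poly fun a => good a k) (ho : ∀ k, PolyT.Poly fun a => out a k) :
    ∀ l : List K, PolyT.Poly fun a => pick (good a) (out a) d l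
  | [] => PolyT.Poly.const _
  | k :: l => (hg k).cond (ho k) (p_pick d hg ho l)

end Pool.Agent.PP.Amp
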