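import Pool.Agent.MP_13199e_lc.Amp.Core

/-! Amplifier: an explicit expander on pairs of truncated polynomials over the field with four
elements. -/

set_option autoImplicit false

namespace Pool.Agent.PP.Amp
open Finset

abbrev W4 : Type := Bool × Bool
abbrev Dg : Type := W4 × W4
abbrev Mv : Type := (Bool × W4) × W4

def w0 : W4 := (false, false)
def z0 : Dg := (w0, w0)
def wa (u v : W4) : W4 := (xor u.1 v.1, xor u.2 v.2)
def wm (a u : W4) : W4 :=
  (xor (a.1 && u.1) (a.2 && u.2), xor (xor (a.1 && u.2) (a.2 && u.1)) (a.2 && u.2))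
def wd (u v : W4) : Bool := xor (u.1 && v.1) (u.2 && v.2)
def xr (d e : Dg) : Dg := (wa d.1 e.1, wa d.2 e.2)
def lin (ν : Bool × W4) (d : Dg) : Dg := bif ν.1 then (wm ν.2 d.2, w0) else (w0, wm ν.2 d.1)
def gq (μ : Mv) : Dg := bif μ.1.1 then (μ.2, w0) else (w0, μ.2)
def adj (ν : Bool × W4) : Bool × W4 := (!ν.1, ν.2)
def pj (t : Bool) (d : Dg) : W4 := bif t then d.1 else d.2
def sz (d e : Dg) : ℤ := bif xor (wd d.1 e.1) (wd d.2 e.2) then -1 else 1
def sg (d e : Dg) : ℝ := sz d e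

theorem wd_wa : ∀ u v w : W4, wd u (wa v w) = xor (wd u v) (wd u w) := by decide
theorem sz_comm : ∀ d e : Dg, sz d e = sz e d := by decide
theorem sz_xr (d e f : Dg) : sz d (xr e f) = sz d e * sz d f := by
  simp only [sz, xr, wd_wa]
  cases wd d.1 e.1 <;> cases wd d.2 e.2 <;> cases wd d.1 f.1 <;> cases wd d.2 f.2 <;> rfl
theorem wd_wm : ∀ a u v : W4, wd u (wm a v) = wd (wm a u) v := by decide
theorem wd_w0 : ∀ u : W4, wd u w0 = false ∧ wd w0 u = false := by decide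
theorem sz_lin (ν : Bool × W4) (d e : Dg) : sz d (lin ν e) = sz (lin (adj ν) d) e := by
  obtain ⟨t, a⟩ := ν
  cases t <;> simp [sz, lin, adj, wd_wm, wd_w0]
theorem sz_z0 : ∀ d : Dg, sz z0 d = 1 := by decide
theorem xr_xr : ∀ d e : Dg, xr (xr d e) e = d := by decide
theorem xr_z0 : ∀ d : Dg, xr z0 d = d := by decide
theorem lin_z0 : ∀ ν : Bool × W4, lin ν z0 = z0 := by decide
theorem wa_w0 : ∀ u : W4, wa u w0 = u := by decide
theorem lin_lin (ν : Bool × W4) (d e : Dg) : lin ν (xr d (lin ν e)) = lin ν d := by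
  obtain ⟨t, a⟩ := ν
  cases t <;> simp [lin, xr, wa_w0]
theorem lin_gq (μ : Mv) (d : Dg) : lin μ.1 (xr d (gq μ)) = lin μ.1 d := by
  obtain ⟨⟨t, a⟩, g⟩ := μ
  cases t <;> simp [lin, xr, gq, wa_w0]
theorem pj_lin (ν : Bool × W4) (d e : Dg) : pj ν.1 (xr d (lin (adj ν) e)) = pj ν.1 d := by
  obtain ⟨t, a⟩ := ν
  cases t <;> simp [lin, xr, pj, adj, wa_w0]
theorem lin_pj : ∀ (ν : Bool × W4) (d : Dg), pj ν.1 d = w0 → lin (adj ν) d = z0 := by decide
theorem sum_gq : ∀ (ν : Bool × W4) (d : Dg),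
    ∑ g : W4, sz d (gq (ν, g)) = if pj ν.1 d = w0 then 4 else 0 := by decide
theorem sum_sz : ∀ d : Dg, ∑ e : Dg, sz e d = if d = z0 then 16 else 0 := by decide
theorem xr_eq : ∀ d e : Dg, xr d e = z0 ↔ d = e := by decide
/-- twice the ratio of the potentials -/
def cw (ν : Bool × W4) (u v : Dg) : ℕ :=
  if lin (adj ν) u ≠ z0 then 1 else if xr u (lin (adj ν) v) ≠ z0 then 2 else 4
theorem sum_cw : ∀ u v : Dg, u ≠ z0 → ∑ ν, cw ν u v ≤ 15 := by decide

variable {i : ℕ}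

def ge (x : Fin i → Dg) (n : ℕ) : Dg := if h : n < i then x ⟨n, h⟩ else z0

@[simp] theorem ge_val (x : Fin i → Dg) (n : Fin i) : ge x n = x n := dif_pos n.2

def sh (μ : Mv) (x : Fin i → Dg) : ℕ → Dg
  | 0 => gq μ
  | n + 1 => lin μ.1 (ge x n)

/-- The moves. -/
def mv (μ : Mv) (x : Fin i → Dg) : Fin i → Dg := fun n => xr (x n) (sh μ x n)

theorem mv_mv (μ : Mv) (x : Fin i → Dg) : mv μ (mv μ x) = x := by
  funext ⟨n, hn⟩
  have : sh μ (mv μ x) n = sh μ x n := by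
    cases n with
    | zero => rfl
    | succ n =>
      have hn' : n < i := by omega
      simp only [sh, ge, hn', dif_pos, mv]
      cases n with
      | zero => exact lin_gq _ _
      | succ n => exact lin_lin _ _ _
  simp only [mv, this, xr_xr]

/-- The dual moves. -/
def dl (ν : Bool × W4) (ξ : Fin i → Dg) : Fin i → Dg :=
  fun n => xr (ξ n) (lin (adj ν) (ge ξ (n + 1)))

theorem ge_dl (ν : Bool × W4) (ξ : Fin i → Dg) (n : ℕ) :
    ge (dl ν ξ) n = xr (ge ξ n) (lin (adj ν) (ge ξ (n + 1))) := by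
  by_cases h : n < i
  · simp only [ge, h, dif_pos, dl]
  · have h' : ¬n + 1 < i := by omega
    simp only [ge, h, h', dif_neg, not_false_eq_true, lin_z0, xr_z0]

theorem dl_dl (ν : Bool × W4) (ξ : Fin i → Dg) : dl ν (dl ν ξ) = ξ := by
  funext n
  rw [dl, ge_dl, lin_lin, dl, xr_xr]

def chi (ξ x : Fin i → Dg) : ℝ := ∏ n, sg (ξ n) (x n)

theorem sg_xr (d e f : Dg) : sg d (xr e f) = sg d e * sg d f := by simp [sg, sz_xr]
theorem sg_comm (d e : Dg) : sg d e = sg e d := by rw [sg, sz_comm, sg]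
theorem sg_z0 (d : Dg) : sg z0 d = 1 := by simp [sg, sz_z0]

theorem chi_mv (μ : Mv) (ξ x : Fin i → Dg) :
    chi ξ (mv μ x) = sg (ge ξ 0) (gq μ) * chi (dl μ.1 ξ) x := by
  have h1 : ∏ n : Fin i, sg (ξ n) (sh μ x n) = ∏ n ∈ range (i + 1), sg (ge ξ n) (sh μ x n) := by
    rw [prod_range_succ, prod_range, ge, dif_neg (lt_irrefl i), sg_z0, mul_one]
    simp
  have h2 : ∏ n : Fin i, sg (x n) (lin (adj μ.1) (ge ξ (n + 1)))
      = ∏ n ∈ range i, sg (ge ξ (n + 1)) (sh μ x (n + 1)) := by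
    rw [prod_range]
    refine prod_congr rfl fun n _ => ?_
    rw [sh, ge_val, sg_comm, sg, sg, sz_lin]
  have h3 : chi (dl μ.1 ξ) x = chi ξ x * ∏ n : Fin i, sg (x n) (lin (adj μ.1) (ge ξ (n + 1))) := by
    rw [chi, chi, ← prod_mul_distrib]
    exact prod_congr rfl fun n _ => by rw [dl, sg_comm, sg_xr, sg_comm]
  simp only [chi, mv, sg_xr, prod_mul_distrib] at h3 ⊢
  rw [h3, h1, h2, prod_range_succ', sh]
  ring

theorem chi_orth (x y : Fin i → Dg) : ∑ ξ, chi ξ x * chi ξ y = if x = y then 16 ^ i else 0 := by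
  have h := prod_univ_sum (fun _ : Fin i => (univ : Finset Dg)) fun n d => sg d (xr (x n) (y n))
  have h2 : ∀ d : Dg, ∑ e : Dg, sg e d = if d = z0 then 16 else 0 := fun d => by
    have := congrArg (Int.cast (R := ℝ)) (sum_sz d)
    simpa [sg] using this
  simp only [Fintype.piFinset_univ, h2, xr_eq] at h
  simp only [chi, ← prod_mul_distrib, ← sg_xr]
  rw [← h]
  split_ifs with e
  · simp [e]
  · obtain ⟨n, hn⟩ := Function.ne_iff.1 e
    exact prod_eq_zero (mem_univ n) (if_neg hn)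

noncomputable def hat (F : (Fin i → Dg) → ℝ) (ξ : Fin i → Dg) : ℝ := ∑ x, F x * chi ξ x

theorem plan (F : (Fin i → Dg) → ℝ) : ∑ ξ, hat F ξ ^ 2 = 16 ^ i * ∑ x, F x ^ 2 := by
  have : ∀ ξ, hat F ξ ^ 2 = ∑ x, ∑ y, F x * F y * (chi ξ x * chi ξ y) := fun ξ => by
    rw [hat, sq, sum_mul_sum]
    exact sum_congr rfl fun x _ => sum_congr rfl fun y _ => by ring
  simp only [this]
  rw [sum_comm, mul_sum]
  refine sum_congr rfl fun x _ => ?_
  rw [sum_comm]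
  simp only [← mul_sum, chi_orth, mul_ite, mul_zero, sum_ite_eq, mem_univ, if_true]
  ring

/-- The survival factor. -/
def sv (ν : Bool × W4) (ξ : Fin i → Dg) : ℝ := if pj ν.1 (ge ξ 0) = w0 then 1 else 0

theorem hat_avg (F : (Fin i → Dg) → ℝ) (ξ : Fin i → Dg) :
    hat (fun x => ∑ μ, F (mv μ x)) ξ = 4 * ∑ ν, sv ν ξ * hat F (dl ν ξ) := by
  have h1 : ∀ μ : Mv, ∑ x, F (mv μ x) * chi ξ x = sg (ge ξ 0) (gq μ) * hat F (dl μ.1 ξ) := by
    intro μ
    rw [← Equiv.sum_comp (Function.Involutive.toPerm _ (mv_mv μ)), hat, mul_sum]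
    refine sum_congr rfl fun x _ => ?_
    rw [Function.Involutive.coe_toPerm, mv_mv, chi_mv]; ring
  simp only [hat, sum_mul] at h1 ⊢
  rw [sum_comm]
  simp only [h1]
  rw [Fintype.sum_prod_type, mul_sum]
  refine sum_congr rfl fun ν _ => ?_
  have := congrArg (Int.cast (R := ℝ)) (sum_gq ν (ge ξ 0))
  simp only [Int.cast_sum] at this
  simp only [← sum_mul, sg, this, sv]
  split_ifs <;> simp

/-- The potential. -/
noncomputable def pot (ξ : Fin i → Dg) : ℝ := 2 ^ sInf {n | ge ξ n ≠ z0}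

theorem pot_pos (ξ : Fin i → Dg) : 0 < pot ξ := by unfold pot; positivity

theorem pot_le {ξ : Fin i → Dg} {n : ℕ} (h : ge ξ n ≠ z0) : pot ξ ≤ 2 ^ n :=
  pow_le_pow_right₀ one_le_two (Nat.sInf_le h)

theorem pot_sum {ξ : Fin i → Dg} (h : ξ ≠ fun _ => z0) :
    ∑ ν, sv ν ξ * pot (dl ν ξ) ≤ 15 / 2 * pot ξ := by
  obtain ⟨k, hk⟩ := Function.ne_iff.1 h
  have hu : ge ξ (sInf {n | ge ξ n ≠ z0}) ≠ z0 :=
    Nat.sInf_mem (s := {n | ge ξ n ≠ z0}) ⟨k, by simpa using hk⟩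
  have hlow : ∀ m < sInf {n | ge ξ n ≠ z0}, ge ξ m = z0 := fun m hm =>
    not_not.1 (Nat.notMem_of_lt_sInf hm)
  rw [show pot ξ = 2 ^ sInf {n | ge ξ n ≠ z0} from rfl]
  generalize sInf {n | ge ξ n ≠ z0} = n at hu hlow
  have key : ∀ ν, sv ν ξ * pot (dl ν ξ) ≤ (cw ν (ge ξ n) (ge ξ (n + 1)) : ℝ) * (2 ^ n / 2) := by
    intro ν
    have hs : sv ν ξ * pot (dl ν ξ) ≤ pot (dl ν ξ) :=
      mul_le_of_le_one_left (pot_pos _).le (by unfold sv; split_ifs <;> norm_num)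
    unfold cw
    split_ifs with h1 h2
    · cases n with
      | zero => rw [sv, if_neg fun h => h1 (lin_pj ν _ h)]; norm_num
      | succ n =>
        have := pot_le (ξ := dl ν ξ) (n := n) (by rwa [ge_dl, hlow n (by omega), xr_z0])
        rw [pow_succ]; push_cast; linarith
    · have := pot_le (ξ := dl ν ξ) (n := n) (by rwa [ge_dl])
      push_cast; linarith
    · have h3 : ge ξ n = lin (adj ν) (ge ξ (n + 1)) := (xr_eq _ _).1 (not_not.1 h2)
      have := pot_le (ξ := dl ν ξ) (n := n + 1) (fun h => hu (by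
        rw [h3, ← lin_lin (adj ν) _ (ge ξ (n + 1 + 1)), ← ge_dl, h, lin_z0]))
      rw [pow_succ] at this; push_cast; linarith
  refine le_trans (sum_le_sum fun ν _ => key ν) ?_
  have : (∑ ν, (cw ν (ge ξ n) (ge ξ (n + 1)) : ℝ)) ≤ 15 := by exact_mod_cast sum_cw _ _ hu
  rw [← sum_mul]
  have h2 : (0:ℝ) < 2 ^ n := by positivity
  nlinarith

theorem schur (f : (Fin i → Dg) → ℝ) (h0 : f (fun _ => z0) = 0) :
    ∑ ξ, (∑ ν, sv ν ξ * f (dl ν ξ)) ^ 2 ≤ (15 / 2) ^ 2 * ∑ ξ, f ξ ^ 2 := by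
  have s0 : ∀ ν (ξ : Fin i → Dg), 0 ≤ sv ν ξ := fun ν ξ => by unfold sv; split_ifs <;> norm_num
  have hd0 : ∀ ν, dl ν (fun _ : Fin i => z0) = fun _ => z0 := fun ν => by
    funext n; simp [dl, ge, lin_z0, xr_z0]
  have h1 : ∀ ξ, (∑ ν, sv ν ξ * f (dl ν ξ)) ^ 2
      ≤ 15 / 2 * ∑ ν, pot ξ * (sv ν ξ * (f (dl ν ξ) ^ 2 / pot (dl ν ξ))) := by
    intro ξ
    by_cases h : ξ = fun _ => z0
    · simp [h, hd0, h0]
    have hn : 0 ≤ ∑ ν, sv ν ξ * (f (dl ν ξ) ^ 2 / pot (dl ν ξ)) :=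
      sum_nonneg fun ν _ => mul_nonneg (s0 _ _) (div_nonneg (sq_nonneg _) (pot_pos _).le)
    refine le_trans (sum_sq_le_sum_mul_sum_of_sq_le_mul univ
      (f := fun ν => sv ν ξ * pot (dl ν ξ))
      (g := fun ν => sv ν ξ * (f (dl ν ξ) ^ 2 / pot (dl ν ξ)))
      (fun ν _ => mul_nonneg (s0 _ _) (pot_pos _).le)
      (fun ν _ => mul_nonneg (s0 _ _) (div_nonneg (sq_nonneg _) (pot_pos _).le))
      (fun ν _ => le_of_eq (by have := (pot_pos (dl ν ξ)).ne'; field_simp))) ?_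
    rw [← mul_sum, ← mul_assoc]
    exact mul_le_mul_of_nonneg_right (pot_sum h) hn
  have h2 : ∀ ν, ∑ ξ, pot ξ * (sv ν ξ * (f (dl ν ξ) ^ 2 / pot (dl ν ξ)))
      = ∑ ξ, f ξ ^ 2 / pot ξ * (sv ν ξ * pot (dl ν ξ)) := fun ν => by
    rw [← Equiv.sum_comp (Function.Involutive.toPerm _ (dl_dl ν))]
    refine sum_congr rfl fun ξ _ => ?_
    rw [Function.Involutive.coe_toPerm, dl_dl, sv, ge_dl, pj_lin, sv]; ring
  refine le_trans (sum_le_sum fun ξ _ => h1 ξ) ?_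
  rw [← mul_sum, sum_comm, sq (15 / 2 : ℝ), mul_assoc]
  simp only [h2]
  refine mul_le_mul_of_nonneg_left ?_ (by norm_num)
  rw [sum_comm, mul_sum]
  refine sum_le_sum fun ξ _ => ?_
  by_cases h : ξ = fun _ => z0
  · simp [h, h0]
  rw [← mul_sum]
  have := (pot_pos ξ).ne'
  calc _ ≤ f ξ ^ 2 / pot ξ * (15 / 2 * pot ξ) :=
        mul_le_mul_of_nonneg_left (pot_sum h) (div_nonneg (sq_nonneg _) (pot_pos _).le)
    _ = _ := by field_simp

theorem mix_mv (i : ℕ) : MixS (fun μ (x : Fin i → Dg) => mv μ x) (225 / 256) := by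
  intro G mu hG
  have h0 : hat (fun x => G x - mu) (fun _ => z0) = 0 := by
    simp [hat, chi, sg_z0, hG, mul_comm]
  have h1 := schur _ h0
  have h2 := plan fun x => ∑ μ, (G (mv μ x) - mu)
  have h3 := hat_avg fun x => G x - mu
  simp only [h3, mul_pow, ← mul_sum] at h2
  rw [plan] at h1
  have h4 : ∀ x, (∑ μ, G (mv μ x)) / Fintype.card Mv - mu = (∑ μ, (G (mv μ x) - mu)) / 32 := by
    intro x; simp; ring
  simp only [h4, div_pow, ← sum_div]
  have h5 : (0:ℝ) < 16 ^ i := by positivity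
  refine le_of_mul_le_mul_left ?_ h5
  rw [← mul_div_assoc, ← h2]
  linarith

end Pool.Agent.PP.Amp
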