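import Pool.Agent.MP_13199e_lc.Amp.Exp
import Pool.Agent.MP_13199e_lc.Amp.Dec

/-! Amplifier: powers of the expander and its moves on numbers. -/

set_option autoImplicit false

namespace Pool.Agent.PP.Amp
open Finset Pool.Agent.PolyT Pool.Agent.H82

section
variable {V V' I J : Type} [Fintype V] [Fintype V'] [Fintype I] [Fintype J]

theorem MixS.mono {p : I → V → V} {l l' : ℝ} (h : MixS p l) (hl : l ≤ l') : MixS p l' :=
  fun G mu hG => le_trans (h G mu hG)
    (mul_le_mul_of_nonneg_right hl (sum_nonneg fun _ _ => sq_nonneg _))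

theorem MixS.comp [Nonempty J] {p : I → V → V} {q : J → V → V} {l l' : ℝ} (h : MixS p l)
    (h' : MixS q l') (hl : 0 ≤ l) (hq : ∀ j, Function.Bijective (q j)) {K : Type} [Fintype K]
    (e : I × J ≃ K) {r : K → V → V} (hr : ∀ i j c, r (e (i, j)) c = q j (p i c)) :
    MixS r (l * l') := by
  intro G mu hG
  have hJ : (Fintype.card J : ℝ) ≠ 0 := by simp
  have h1 := h (fun c => (∑ j, G (q j c)) / Fintype.card J) mu (by
    rw [← sum_div, sum_comm]
    simp only [fun j => (hq j).sum_comp G, hG]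
    simp only [sum_const, card_univ, nsmul_eq_mul]
    field_simp)
  have h2 : ∀ c, (∑ k, G (r k c)) / Fintype.card K
      = (∑ i, (∑ j, G (q j (p i c))) / Fintype.card J) / Fintype.card I := fun c => by
    rw [← e.sum_comp, ← Fintype.card_congr e, Fintype.sum_prod_type, ← sum_div, Fintype.card_prod]
    simp only [hr]
    push_cast
    rw [div_div, mul_comm]
  simp only [h2]
  rw [mul_assoc]
  exact le_trans h1 (mul_le_mul_of_nonneg_left (h' G mu hG) hl)

theorem MixS.transport {p : I → V → V} {l : ℝ} (h : MixS p l) (e : V ≃ V') :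
    MixS (fun i c => e (p i (e.symm c))) l := by
  intro G mu hG
  have := h (fun c => G (e c)) mu (by rw [e.sum_comp G, hG, Fintype.card_congr e])
  rw [← e.sum_comp, ← e.sum_comp]
  simpa using this

end

variable {i : ℕ}

/-- A word of moves. -/
def rn (l : List Mv) (x : Fin i → Dg) : Fin i → Dg := l.foldl (fun x μ => mv μ x) x

theorem rn_rev : ∀ (l : List Mv) (x : Fin i → Dg), rn l.reverse (rn l x) = x
  | [], _ => rfl
  | μ :: l, x => by
      have := rn_rev l (mv μ x)
      simp only [rn, List.reverse_cons, List.foldl_append, List.foldl_cons, List.foldl_nil] at this ⊢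
      rw [this, mv_mv]

/-- The permutation of a word. -/
def rnP (l : List Mv) : Equiv.Perm (Fin i → Dg) :=
  ⟨rn l, rn l.reverse, rn_rev l, fun x => by simpa using rn_rev l.reverse x⟩

theorem mix_pow (i : ℕ) : ∀ k : ℕ,
    MixS (fun (w : Fin k → Mv) (x : Fin i → Dg) => rn (List.ofFn w) x) ((225 / 256) ^ k)
  | 0 => fun G mu _ => by simp [rn]
  | k + 1 => by
      rw [pow_succ']
      exact (mix_mv i).comp (mix_pow i k) (by norm_num) (fun w => (rnP (List.ofFn w)).bijective)
        (Fin.consEquiv fun _ => Mv) fun μ w c => by simp [rn, Fin.consEquiv]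

/-- The numbers of the digits. -/
noncomputable def e16 : Dg ≃ Fin 16 := Fintype.equivFinOfCardEq (by simp)

/-- The numbers of the vertices. -/
noncomputable def num (i : ℕ) : (Fin i → Dg) ≃ Fin (16 ^ i) :=
  (Equiv.arrowCongr (Equiv.refl _) e16).trans finFunctionFinEquiv

theorem num_val (x : Fin i → Dg) : (num i x : ℕ) = ∑ n : Fin i, (e16 (x n) : ℕ) * 16 ^ (n : ℕ) := rfl

theorem num_dig (x : Fin i → Dg) (n : Fin i) : (num i x : ℕ) / 16 ^ (n : ℕ) % 16 = e16 (x n) := by
  have h : finFunctionFinEquiv.symm (num i x) n = e16 (x n) := by simp [num]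
  rw [← h]; rfl

/-- Powers of sixteen. -/
def pw (R : List ℕ) (n : ℕ) : ℕ := ofBits (((R.take (4 * n)).map fun _ => false) ++ [true])

theorem pw_eq {R : List ℕ} {n : ℕ} (h : 4 * n ≤ R.length) : pw R n = 16 ^ n := by
  have h0 : ∀ l : List ℕ, ofBits (l.map fun _ => false) = 0 := fun l => by
    induction l with
    | nil => rfl
    | cons a l ih => rw [List.map_cons, ofBits_cons, ih]; rfl
  rw [pw, ofBits_append, h0, List.length_map, List.length_take, min_eq_left h, pow_mul]
  simp

noncomputable def tb0 (μ : Mv) : List ℕ := List.ofFn fun c : Fin 16 => e16 (xr (e16.symm c) (gq μ))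

noncomputable def tb1 (μ : Mv) : List (List ℕ) := List.ofFn fun p : Fin 16 =>
  List.ofFn fun c : Fin 16 => e16 (xr (e16.symm c) (lin μ.1 (e16.symm p)))

def dgt (R : List ℕ) (v n : ℕ) : ℕ := v / pw R n - 16 * (v / pw R n / 16)

/-- The moves on numbers; the number of digits is a quarter of the length of `R`. -/
noncomputable def mvN (μ : Mv) (R : List ℕ) (v : ℕ) : ℕ :=
  ((idx (R.take (R.length / 4))).map fun n => (bif eqB n 0 then (tb0 μ).getD (dgt R v 0) 0
    else ((tb1 μ).getD (dgt R v (n - 1)) []).getD (dgt R v n) 0) * pw R n).sum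

theorem getD_ofFn {β : Type} {n : ℕ} (f : Fin n → β) (c : Fin n) (d : β) :
    (List.ofFn f).getD c d = f c := by simp [List.getD_eq_getElem?_getD]

theorem mvN_num (μ : Mv) (R : List ℕ) (x : Fin (R.length / 4) → Dg) :
    mvN μ R (num _ x) = num _ (mv μ x) := by
  have hp : ∀ n < R.length / 4, pw R n = 16 ^ n := fun n hn => pw_eq (by omega)
  have hd : ∀ n (h : n < R.length / 4), dgt R (num _ x) n = e16 (x ⟨n, h⟩) := fun n h => by
    rw [dgt, hp n h, ← Nat.mod_def]; exact num_dig x ⟨n, h⟩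
  rw [mvN, idx, List.length_take, min_eq_left (Nat.div_le_self _ _), num_val (mv μ x)]
  refine (sum_range _).trans (sum_congr rfl fun ⟨n, hn⟩ _ => ?_)
  rw [hp n hn]
  congr 1
  cases n with
  | zero => rw [hd 0 hn, tb0, getD_ofFn]; simp [eqB, mv, sh]
  | succ n =>
    have hn' : n < R.length / 4 := by omega
    rw [Nat.add_sub_cancel, hd _ hn, hd _ hn', tb1, getD_ofFn, getD_ofFn]
    simp [eqB, mv, sh, ge, hn']

/-- Words of moves on numbers. -/
noncomputable def rnN (R : List ℕ) (l : List Mv) (v : ℕ) : ℕ := l.foldl (fun v μ => mvN μ R v) v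

theorem rnN_num (R : List ℕ) : ∀ (l : List Mv) (x : Fin (R.length / 4) → Dg),
    rnN R l (num _ x) = num _ (rn l x)
  | [], _ => rfl
  | μ :: l, x => by
      have := rnN_num R l (mv μ x)
      rw [← mvN_num] at this
      exact this

variable {α : Type} [N487b59b3 α]

@[fun_prop] theorem p_pw {R : α → List ℕ} {n : α → ℕ} (hR : PolyT.Poly R) (hn : PolyT.Poly n) :
    PolyT.Poly fun a => pw (R a) (n a) := PolyT.Poly.ofBits (by fun_prop)

@[fun_prop] theorem p_dgt {R : α → List ℕ} {v n : α → ℕ} (hR : PolyT.Poly R) (hv : PolyT.Poly v)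
    (hn : PolyT.Poly n) : PolyT.Poly fun a => dgt (R a) (v a) (n a) := by
  unfold dgt; fun_prop

theorem p_mvN (μ : Mv) {R : α → List ℕ} {v : α → ℕ} (hR : PolyT.Poly R) (hv : PolyT.Poly v) :
    PolyT.Poly fun a => mvN μ (R a) (v a) := PolyT.Poly.sum (by fun_prop)

theorem p_rnN {R : α → List ℕ} (hR : PolyT.Poly R) : ∀ (l : List Mv) {v : α → ℕ},
    PolyT.Poly v → PolyT.Poly fun a => rnN (R a) l (v a)
  | [], _, hv => hv
  | μ :: l, _, hv => p_rnN hR l (p_mvN μ hR hv)

/-- Expanders with a given second eigenvalue on `16 ^ i` points. -/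
theorem expander (lam2 : ℝ) (hl : 0 < lam2) : ∃ k : ℕ, ∀ R : List ℕ,
    ∃ pi : (Fin k → Mv) → Equiv.Perm (Fin (16 ^ (R.length / 4))), MixS (fun w c => pi w c) lam2 ∧
      ∀ w v, (((pi w).symm v : Fin _) : ℕ) = rnN R (List.ofFn w).reverse v ∧
        (pi w v : ℕ) = rnN R (List.ofFn w) v := by
  obtain ⟨k, hk⟩ := exists_pow_lt_of_lt_one hl (by norm_num : (225 / 256 : ℝ) < 1)
  refine ⟨k, fun R => ⟨fun w => (num _).permCongr (rnP (List.ofFn w)),
    ((mix_pow _ k).transport (num _)).mono hk.le, fun w v => ?_⟩⟩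
  obtain ⟨x, rfl⟩ := (num _).surjective v
  rw [rnN_num, rnN_num]
  simp [rnP, Equiv.permCongr_def]

end Pool.Agent.PP.Amp
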