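import Pool.Agent.MP_13199e_lc.Amp.Prog
import Pool.Agent.MP_13199e_lc.Defs
import Pool.Agent.Lib.helper82.PolyFun

/-! Amplifier: tree programs as lists of gates. -/

set_option autoImplicit false

namespace Pool.Agent.PP.Amp
open Pool.Agent.MP_13199e_lc Pool.Agent.PolyT Pool.Agent.H82

abbrev GG : Type := ℕ × ℚ × ℕ × ℕ

variable {P : Type}

/-- The gates of a program that starts at the node `b`; the root is the last gate. -/
def comp (lf : P → GG) : ℕ → Ex P → List GG
  | _, .var p => [lf p]
  | _, .const a => [(0, a, 0, 0)]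
  | b, .scale a e => comp lf b e ++ [(1, a, b + e.size - 1, 0)]
  | b, .add e f => comp lf b e ++ (comp lf (b + e.size) f ++
      [(3, 0, b + e.size - 1, b + e.size + f.size - 1)])
  | b, .sub e f => comp lf b e ++ (comp lf (b + e.size) f ++
      [(4, 0, b + e.size - 1, b + e.size + f.size - 1)])

theorem size_pos : ∀ e : Ex P, 0 < e.size
  | .var _ => Nat.one_pos
  | .const _ => Nat.one_pos
  | .scale _ _ => Nat.succ_pos _
  | .add _ _ => Nat.succ_pos _
  | .sub _ _ => Nat.succ_pos _

theorem comp_length (lf : P → GG) : ∀ (e : Ex P) (b : ℕ), (comp lf b e).length = e.size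
  | .var _, _ => rfl
  | .const _, _ => rfl
  | .scale _ e, b => by simp [comp, Ex.size, comp_length lf e]
  | .add e f, b => by simp [comp, Ex.size, comp_length lf e, comp_length lf f, add_assoc]
  | .sub e f, b => by simp [comp, Ex.size, comp_length lf e, comp_length lf f, add_assoc]

/-- The gate `g` with the output value `v` is satisfied. -/
def Ok1 (ε : ℚ) (x : ℕ → ℚ) (g : GG) (v : ℚ) : Prop := GOk ε g.1 g.2.1 (x g.2.2.1) (x g.2.2.2) v

/-- The gates of the list, placed from the node `b` on, are satisfied. -/
def AllOk (ε : ℚ) (x : ℕ → ℚ) : ℕ → List GG → Prop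
  | _, [] => True
  | b, g :: l => Ok1 ε x g (x b) ∧ AllOk ε x (b + 1) l

variable {ε : ℚ} {x : ℕ → ℚ}

theorem allOk_append {l l' : List GG} : ∀ {b : ℕ}, AllOk ε x b (l ++ l') →
    AllOk ε x b l ∧ AllOk ε x (b + l.length) l' := by
  induction l with
  | nil => intro b h; exact ⟨trivial, h⟩
  | cons g l ih =>
    intro b h
    have := ih h.2
    exact ⟨⟨h.1, this.1⟩, by rw [List.length_cons, ← add_assoc, add_right_comm]; exact this.2⟩

theorem allOk_of {l : List GG} : ∀ {b : ℕ},
    (∀ i g, l[i]? = some g → Ok1 ε x g (x (b + i))) → AllOk ε x b l := by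
  induction l with
  | nil => intro b _; trivial
  | cons g l ih =>
    intro b h
    refine ⟨h 0 g rfl, ih fun i g' hg => ?_⟩
    rw [add_assoc, add_comm 1 i]
    exact h (i + 1) g' hg

theorem allOk_flatMap {K : Type} (f : K → List GG) (n : ℕ) (hf : ∀ k, (f k).length = n)
    {L : List K} : ∀ {b : ℕ}, AllOk ε x b (L.flatMap f) → ∀ i k, L[i]? = some k →
      AllOk ε x (b + i * n) (f k) := by
  induction L with
  | nil => intro b _ i k h; simp at h
  | cons a L ih =>
    intro b h i k hk
    rw [List.flatMap_cons] at h
    obtain ⟨h1, h2⟩ := allOk_append h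
    cases i with
    | zero => obtain rfl : a = k := by simpa using hk
              simpa using h1
    | succ i =>
      have := ih h2 i k (by simpa using hk)
      rw [hf] at this
      rwa [Nat.succ_mul, add_comm (i * n), ← add_assoc]

theorem getElem?_flatMap {K G : Type} (f : K → List G) (n : ℕ) (hf : ∀ k, (f k).length = n)
    {L : List K} : ∀ i k, L[i]? = some k → ∀ j < n, (L.flatMap f)[i * n + j]? = (f k)[j]? := by
  induction L with
  | nil => intro i k h; simp at h
  | cons a L ih =>
    intro i k hk j hj
    rw [List.flatMap_cons]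
    cases i with
    | zero =>
      obtain rfl : a = k := by simpa using hk
      rw [Nat.zero_mul, Nat.zero_add, List.getElem?_append_left (by rw [hf]; exact hj)]
    | succ i =>
      rw [List.getElem?_append_right (by rw [hf, Nat.succ_mul]; omega), hf,
        ← ih i k (by simpa using hk) j hj]
      congr 1
      rw [Nat.succ_mul]; omega

theorem length_flatMap_const {K G : Type} (f : K → List G) (n : ℕ) (hf : ∀ k, (f k).length = n)
    (L : List K) : (L.flatMap f).length = L.length * n := by
  induction L with
  | nil => simp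
  | cons a L ih => rw [List.flatMap_cons, List.length_append, ih, hf, List.length_cons]; ring

theorem comp_run (lf : P → GG) (vw : P → ℝ)
    (hl : ∀ p v, Ok1 ε x (lf p) v → |(v : ℝ) - vw p| ≤ ε) :
    ∀ (e : Ex P) (b : ℕ), AllOk ε x b (comp lf b e) → Run ε vw e (x (b + e.size - 1))
  | .var p, b, h => .var p _ (hl p _ h.1)
  | .const a, b, h => .const a _ (by exact_mod_cast h.1.1 rfl)
  | .scale a e, b, h => by
      obtain ⟨h1, h2⟩ := allOk_append h
      rw [comp_length] at h2
      exact .scale a e _ _ (comp_run lf vw hl e b h1) (by exact_mod_cast h2.1.2.1 rfl)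
  | .add e f, b, h => by
      obtain ⟨h1, h2⟩ := allOk_append h
      obtain ⟨h2, h3⟩ := allOk_append (comp_length lf e b ▸ h2)
      rw [comp_length] at h3
      refine .add e f _ _ _ (comp_run lf vw hl e b h1) (comp_run lf vw hl f _ h2) ?_
      rw [show b + (Ex.add e f).size - 1 = b + e.size + f.size by simp only [Ex.size]; omega]
      exact_mod_cast h3.1.2.2.2.1 rfl
  | .sub e f, b, h => by
      obtain ⟨h1, h2⟩ := allOk_append h
      obtain ⟨h2, h3⟩ := allOk_append (comp_length lf e b ▸ h2)
      rw [comp_length] at h3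
      refine .sub e f _ _ _ (comp_run lf vw hl e b h1) (comp_run lf vw hl f _ h2) ?_
      rw [show b + (Ex.sub e f).size - 1 = b + e.size + f.size by simp only [Ex.size]; omega]
      exact_mod_cast h3.1.2.2.2.2.1 rfl

/-- A well formed gate of a circuit with `N` nodes. -/
def Wf1 (N : ℕ) (g : GG) : Prop := g.1 < 9 ∧ 0 ≤ g.2.1 ∧ g.2.1 ≤ 1 ∧ g.2.2.1 < N ∧ g.2.2.2 < N

theorem comp_wf (lf : P → GG) (N : ℕ) (hl : ∀ p, Wf1 N (lf p)) :
    ∀ (e : Ex P) (b : ℕ), e.ok → b + e.size ≤ N → ∀ g ∈ comp lf b e, Wf1 N g
  | .var p, b, _, _, g, hg => by obtain rfl := List.mem_singleton.1 hg; exact hl p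
  | .const a, b, ho, hb, g, hg => by
      obtain rfl := List.mem_singleton.1 hg
      simp only [Ex.size] at hb
      exact ⟨by norm_num, ho.1, ho.2, by simp only; omega, by simp only; omega⟩
  | .scale a e, b, ho, hb, g, hg => by
      simp only [Ex.size] at hb
      rcases List.mem_append.1 hg with h | h
      · exact comp_wf lf N hl e b ho.2.2 (by omega) g h
      · obtain rfl := List.mem_singleton.1 h
        exact ⟨by norm_num, ho.1, ho.2.1, by simp only; omega, by simp only; omega⟩
  | .add e f, b, ho, hb, g, hg => by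
      simp only [Ex.size] at hb
      rcases List.mem_append.1 hg with h | h
      · exact comp_wf lf N hl e b ho.1 (by omega) g h
      rcases List.mem_append.1 h with h | h
      · exact comp_wf lf N hl f _ ho.2 (by omega) g h
      · obtain rfl := List.mem_singleton.1 h
        exact ⟨by norm_num, le_rfl, zero_le_one, by simp only; omega, by simp only; omega⟩
  | .sub e f, b, ho, hb, g, hg => by
      simp only [Ex.size] at hb
      rcases List.mem_append.1 hg with h | h
      · exact comp_wf lf N hl e b ho.1 (by omega) g h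
      rcases List.mem_append.1 h with h | h
      · exact comp_wf lf N hl f _ ho.2 (by omega) g h
      · obtain rfl := List.mem_singleton.1 h
        exact ⟨by norm_num, le_rfl, zero_le_one, by simp only; omega, by simp only; omega⟩

variable {α : Type} [N487b59b3 α]

theorem p_comp_ex {lf : α → P → GG} (hl : ∀ p, PolyT.Poly fun a => lf a p) :
    ∀ (e : Ex P) {b : α → ℕ}, PolyT.Poly b → PolyT.Poly fun a => comp (lf a) (b a) e
  | .var p, _, _ => (hl p).singleton
  | .const _, _, _ => PolyT.Poly.const _
  | .scale c e, b, hb => by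
      have := p_comp_ex hl e hb
      simp only [comp]; fun_prop
  | .add e f, b, hb => by
      have := p_comp_ex hl e hb
      have := p_comp_ex hl f (b := fun a => b a + e.size) (by fun_prop)
      simp only [comp]; fun_prop
  | .sub e f, b, hb => by
      have := p_comp_ex hl e hb
      have := p_comp_ex hl f (b := fun a => b a + e.size) (by fun_prop)
      simp only [comp]; fun_prop

theorem p_flatMap_const {K β : Type} [N487b59b3 β] {f : α → K → List β}
    (hf : ∀ k, PolyT.Poly fun a => f a k) : ∀ L : List K, PolyT.Poly fun a => L.flatMap (f a)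
  | [] => PolyT.Poly.const _
  | k :: L => (hf k).append (p_flatMap_const hf L)

/-- A region of `n` gates from the node `b` on: the first node copies the root of the program. -/
def region (lf : P → GG) (n b : ℕ) (e : Ex P) : List GG :=
  (2, 0, b + e.size, 0) :: (comp lf (b + 1) e ++ List.replicate (n - 1 - e.size) (0, 0, 0, 0))

theorem region_length (lf : P → GG) {n : ℕ} (b : ℕ) {e : Ex P} (h : e.size < n) :
    (region lf n b e).length = n := by
  simp only [region, List.length_cons, List.length_append, comp_length, List.length_replicate]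
  omega

theorem region_close (lf : P → GG) (vw : P → ℝ)
    (hl : ∀ p v, Ok1 ε x (lf p) v → |(v : ℝ) - vw p| ≤ ε) {n b : ℕ} {e : Ex P} (ho : e.ok)
    (h : AllOk ε x b (region lf n b e)) : |(x b : ℝ) - e.ev vw| ≤ (e.size + 1) * ε := by
  have h1 := run_err (comp_run lf vw hl e (b + 1) (allOk_append h.2).1) ho
  have h2 : |(x b : ℝ) - x (b + e.size)| ≤ ε := by exact_mod_cast h.1.2.2.1 rfl
  rw [show b + 1 + e.size - 1 = b + e.size by omega] at h1
  have := abs_sub_le (x b : ℝ) (x (b + e.size)) (e.ev vw)
  linarith

theorem region_wf (lf : P → GG) (N : ℕ) (hl : ∀ p, Wf1 N (lf p)) {n b : ℕ} {e : Ex P} (ho : e.ok)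
    (hb : b + e.size < N) : ∀ g ∈ region lf n b e, Wf1 N g := by
  intro g hg
  rcases List.mem_cons.1 hg with rfl | h
  · exact ⟨by norm_num, le_rfl, zero_le_one, hb, by simp only; omega⟩
  rcases List.mem_append.1 h with h | h
  · exact comp_wf lf N hl e _ ho (by omega) g h
  · obtain rfl := List.eq_of_mem_replicate h
    exact ⟨by norm_num, le_rfl, zero_le_one, by simp only; omega, by simp only; omega⟩

theorem p_region {lf : α → P → GG} (hl : ∀ p, PolyT.Poly fun a => lf a p) (n : ℕ) (e : Ex P)
    {b : α → ℕ} (hb : PolyT.Poly b) : PolyT.Poly fun a => region (lf a) n (b a) e := by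
  have := p_comp_ex hl e (b := fun a => b a + 1) (by fun_prop)
  simp only [region]; fun_prop

end Pool.Agent.PP.Amp
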