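import Pool.Agent.MP_13199e_lc.Amp.Core
import Pool.Agent.MP_13199e_lc.Amp.Flat
import Pool.Agent.MP_13199e_lc.Amp.Dec

/-! Amplifier: the reduction for a polynomial time family of circuits with expanders. -/

set_option autoImplicit false

namespace Pool.Agent.PP.Amp
open Pool.Agent.MP_13199e_lc Pool.Agent.PolyT Pool.Agent.H82 Finset

/-- A polynomial time family of circuits with moves and gate types. -/
structure Src (α I B : Type) [N487b59b3 α] where
  n : α → ℕ
  st : α → St ℕ I
  ty : α → ℕ → B → ℚ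
  pn : PolyT.Poly fun a => List.range (n a)
  pa : PolyT.Poly fun z : α × ℕ => (st z.1).a z.2
  pb : PolyT.Poly fun z : α × ℕ => (st z.1).b z.2
  pp : ∀ i, PolyT.Poly fun z : α × ℕ => (st z.1).p i z.2
  pq : ∀ i, PolyT.Poly fun z : α × ℕ => (st z.1).q i z.2
  pt : ∀ β, PolyT.Poly fun z : α × ℕ => ty z.1 z.2 β

variable {α I B : Type} [N487b59b3 α]

/-- The moves are mixing permutations of the nodes. -/
def Src.Valid [Fintype I] (S : Src α I B) (lam2 : ℝ) (a : α) : Prop :=
  0 < S.n a ∧ (∀ v < S.n a, (S.st a).a v < S.n a ∧ (S.st a).b v < S.n a ∧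
    ∀ β, 0 ≤ S.ty a v β ∧ S.ty a v β ≤ 1) ∧
  ∃ pi : I → Equiv.Perm (Fin (S.n a)), MixS (fun i c => pi i c) lam2 ∧
    ∀ i v, (((pi i).symm v : Fin (S.n a)) : ℕ) = (S.st a).p i v ∧ (pi i v : ℕ) = (S.st a).q i v

theorem Src.p_walk (S : Src α I B) : ∀ w : Wd I, PolyT.Poly fun z : α × ℕ => walk (S.st z.1) z.2 w
  | [] => PolyT.Poly.id.snd
  | .inl false :: w => S.pa.comp (PolyT.Poly.id.fst.pair (S.p_walk w))
  | .inl true :: w => S.pb.comp (PolyT.Poly.id.fst.pair (S.p_walk w))
  | .inr (.inl i) :: w => (S.pp i).comp (PolyT.Poly.id.fst.pair (S.p_walk w))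
  | .inr (.inr i) :: w => (S.pq i).comp (PolyT.Poly.id.fst.pair (S.p_walk w))

theorem walk_val {n : ℕ} (s : St (Fin n) I) (s' : St ℕ I) (ha : ∀ v, (s.a v : ℕ) = s'.a v)
    (hb : ∀ v, (s.b v : ℕ) = s'.b v) (hp : ∀ i v, (s.p i v : ℕ) = s'.p i v)
    (hq : ∀ i v, (s.q i v : ℕ) = s'.q i v) (u : Fin n) :
    ∀ w : Wd I, ((walk s u w : Fin n) : ℕ) = walk s' u w
  | [] => rfl
  | .inl false :: w => by rw [walk, walk, ha, walk_val s s' ha hb hp hq u w]
  | .inl true :: w => by rw [walk, walk, hb, walk_val s s' ha hb hp hq u w]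
  | .inr (.inl i) :: w => by rw [walk, walk, hp, walk_val s s' ha hb hp hq u w]
  | .inr (.inr i) :: w => by rw [walk, walk, hq, walk_val s s' ha hb hp hq u w]

theorem ncard_fin (n : ℕ) (p : ℕ → Prop) [DecidablePred p] :
    Set.ncard {k | k < n ∧ p k} = (univ.filter fun u : Fin n => p u).card := by
  rw [← Finset.card_map Fin.valEmbedding, ← Set.ncard_coe_finset]
  congr 1
  ext k
  simp only [Set.mem_ofPred_eq, Finset.coe_map, Set.mem_image, Finset.mem_coe, Finset.mem_filter,
    Finset.mem_univ, true_and, Fin.valEmbedding_apply]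
  exact ⟨fun h => ⟨⟨k, h.1⟩, h.2, rfl⟩, fun ⟨u, h, e⟩ => e ▸ ⟨u.2, h⟩⟩

theorem length_filter_fin (n : ℕ) (p : ℕ → Bool) :
    ((List.range n).filter p).length = (univ.filter fun u : Fin n => p u = true).card := by
  rw [Finset.card_filter, ← Finset.sum_range fun k => if p k = true then 1 else 0,
    ← Finset.card_filter, ← List.toFinset_card_of_nodup (List.nodup_range.filter _),
    List.toFinset_filter, List.toFinset_range]

section
variable {D m : ℕ} (S : Src α I B) (en : Fin D × I ≃ Fin m) (l : ℕ)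

/-- The node that holds the opinion `k` of the block `u`. -/
def slot (u : ℕ) (k : Fin D × I) : ℕ := u * (m * l) + en k * l

/-- The gates at the leaves. -/
def leaf (a : α) (u : ℕ) : Var I B D → GG
  | (w, .inl β) => (0, S.ty a (walk (S.st a) u w) β, 0, 0)
  | (w, .inr k) => (2, 0, slot en l (walk (S.st a) u w) k, 0)

/-- The rounded view. -/
def vN (M : ℕ) (a : α) (x : List ℚ) (u : ℕ) : Var I B D → ℕ
  | (w, .inl β) => rq (S.ty a (walk (S.st a) u w) β) M
  | (w, .inr k) => rq (x.getD (slot en l (walk (S.st a) u w) k) 0) M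

variable (e : Fin D × I → Ex (Var I B D))

/-- A block. -/
def blk (a : α) (u : ℕ) : List GG :=
  (List.finRange m).flatMap fun κ : Fin m =>
    region (leaf S en l a u) l (u * (m * l) + κ * l) (e (en.symm κ))

/-- The amplified circuit. -/
def circ (a : α) : GCirc := (List.range (S.n a)).flatMap (blk S en l e a)

theorem p_leaf : ∀ v, PolyT.Poly fun z : α × ℕ => leaf S en l z.1 z.2 v
  | (w, .inl β) => by
      have := (S.pt β).comp (PolyT.Poly.id.fst.pair (S.p_walk w))
      simp only [leaf]; fun_prop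
  | (w, .inr k) => by
      have := S.p_walk w
      simp only [leaf, slot]; fun_prop

theorem p_vN (M : ℕ) : ∀ v, PolyT.Poly fun z : (α × List ℚ) × ℕ => vN S en l M z.1.1 z.1.2 z.2 v
  | (w, .inl β) => by
      have h : PolyT.Poly fun z : (α × List ℚ) × ℕ => (z.1.1, z.2) := by fun_prop
      have := ((S.pt β).comp (PolyT.Poly.id.fst.pair (S.p_walk w))).comp h
      simp only [vN]; fun_prop
  | (w, .inr k) => by
      have h : PolyT.Poly fun z : (α × List ℚ) × ℕ => (z.1.1, z.2) := by fun_prop
      have := (S.p_walk w).comp h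
      simp only [vN, slot]; fun_prop

theorem p_circ : PolyT.Poly (circ S en l e) :=
  PolyT.Poly.flatMap (g := blk S en l e) (p_flatMap_const
    (f := fun (z : α × ℕ) (κ : Fin m) =>
      region (leaf S en l z.1 z.2) l (z.2 * (m * l) + κ * l) (e (en.symm κ)))
    (fun κ => p_region (p_leaf S en l) l _ (by fun_prop)) _) S.pn

variable {l e}

theorem blk_length (hl : ∀ k, (e k).size < l) (a : α) (u : ℕ) :
    (blk S en l e a u).length = m * l := by
  rw [blk, length_flatMap_const _ l fun κ => region_length _ _ (hl _), List.length_finRange]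

theorem circ_length (hl : ∀ k, (e k).size < l) (a : α) :
    (circ S en l e a).length = S.n a * (m * l) := by
  rw [circ, length_flatMap_const _ _ (blk_length S en hl a), List.length_range]

theorem slot_lt {u n j : ℕ} (hu : u < n) (κ : Fin m) (hj : j < l) :
    u * (m * l) + κ * l + j < n * (m * l) := by
  have h1 : (κ + 1) * l ≤ m * l := Nat.mul_le_mul_right _ κ.2
  have h2 : (u + 1) * (m * l) ≤ n * (m * l) := Nat.mul_le_mul_right _ hu
  rw [Nat.succ_mul] at h1 h2
  omega

theorem blk_ok (hl : ∀ k, (e k).size < l) {ε : ℚ} {a : α} {x : List ℚ} {u : ℕ} (hu : u < S.n a)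
    (h : ∀ i < m * l, GSat ε (circ S en l e a) x (u * (m * l) + i)) (k : Fin D × I) :
    AllOk ε (fun i => x.getD i 0) (slot en l u k)
      (region (leaf S en l a u) l (slot en l u k) (e k)) := by
  have h1 : AllOk ε (fun i => x.getD i 0) (u * (m * l)) (blk S en l e a u) := by
    refine allOk_of fun i g hg => ?_
    have hi : i < m * l := by
      rw [← blk_length S en hl a u]; exact (List.getElem?_eq_some_iff.1 hg).1
    refine h i hi g ?_
    rw [circ, getElem?_flatMap _ _ (blk_length S en hl a) u u (by simp [hu]) i hi, hg]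
  have h2 := allOk_flatMap _ l (fun κ => region_length _ _ (hl _)) h1 (en k) (en k) (by simp)
  rwa [Equiv.symm_apply_apply] at h2

end

end Pool.Agent.PP.Amp
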