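import Mathlib

/-! Amplifier: the pigeonhole on the levels and the expander tail. -/

set_option autoImplicit false

namespace Pool.Agent.PP.Amp
open Finset

/-- one node, one level: weights `w ≥ w' ≥ 0`, opinions in `[0,1]`, target in `[0,1]`. -/
theorem node_bound {J : Type*} [Fintype J] (w w' y : J → ℝ) (F m ρ : ℝ) (hm : 0 < m) (hρ : 0 < ρ)
    (h0 : ∀ k, 0 ≤ w' k) (h1 : ∀ k, w' k ≤ w k) (hy0 : ∀ k, 0 ≤ y k) (hy1 : ∀ k, y k ≤ 1)
    (hF0 : 0 ≤ F) (hF1 : F ≤ 1) (hv : ∀ k, 0 < w' k → |y k - F| ≤ ρ / 2)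
    (hW : m ≤ ∑ k, w k) (hd : ∑ k, (w k - w' k) ≤ m * (ρ / 2)) :
    |(∑ k, w k * y k) / max (∑ k, w k) m - F| ≤ ρ := by
  have hWpos : 0 < ∑ k, w k := lt_of_lt_of_le hm hW
  rw [max_eq_left hW]
  have e : (∑ k, w k * y k) / (∑ k, w k) - F = (∑ k, w k * (y k - F)) / (∑ k, w k) := by
    have : ∑ k, w k * (y k - F) = ∑ k, w k * y k - (∑ k, w k) * F := by
      rw [Finset.sum_mul, ← Finset.sum_sub_distrib]; refine Finset.sum_congr rfl fun k _ => by ring
    rw [this]; field_simp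
  rw [e, abs_div, abs_of_pos hWpos, div_le_iff₀ hWpos]
  have hk : ∀ k, |w k * (y k - F)| ≤ w k * (ρ / 2) + (w k - w' k) := by
    intro k
    have hw0 : 0 ≤ w k := le_trans (h0 k) (h1 k)
    have hb : |y k - F| ≤ 1 := abs_le.2 ⟨by linarith [hy0 k], by linarith [hy1 k]⟩
    rw [abs_mul, abs_of_nonneg hw0]
    rcases (h0 k).eq_or_lt with h | h
    · have : w k * |y k - F| ≤ w k * 1 := mul_le_mul_of_nonneg_left hb hw0
      nlinarith
    · have h2 := hv k h
      have : w k * |y k - F| ≤ w k * (ρ / 2) := mul_le_mul_of_nonneg_left h2 hw0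
      linarith [h1 k]
  calc |∑ k, w k * (y k - F)| ≤ ∑ k, |w k * (y k - F)| := Finset.abs_sum_le_sum_abs _ _
    _ ≤ ∑ k, (w k * (ρ / 2) + (w k - w' k)) := Finset.sum_le_sum fun k _ => hk k
    _ = (∑ k, w k) * (ρ / 2) + ∑ k, (w k - w' k) := by
        rw [Finset.sum_add_distrib, Finset.sum_mul]
    _ ≤ ρ * ∑ k, w k := by nlinarith

/-- levels lemma, for real and for virtual blocks at once.
`W j c k` = weight at level `j` of the `k`-th holder of node `c`. -/
theorem levels {C J : Type*} [Fintype C] [Fintype J] (D : ℕ) (hD : 0 < D)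
    (W y : ℕ → C → J → ℝ) (F : ℕ → C → ℝ) (m A ρ : ℝ) (hm : 0 < m) (hρ : 0 < ρ)
    (h0 : ∀ j c k, 0 ≤ W j c k) (h1 : ∀ j c k, W (j+1) c k ≤ W j c k)
    (hy0 : ∀ j c k, 0 ≤ y j c k) (hy1 : ∀ j c k, y j c k ≤ 1)
    (hF0 : ∀ j c, 0 ≤ F j c) (hF1 : ∀ j c, F j c ≤ 1)
    (hv : ∀ j c k, 0 < W (j+1) c k → |y j c k - F j c| ≤ ρ / 2)
    (hA : ∑ c, ∑ k, W 0 c k ≤ A) :
    ∃ j < D, ((univ.filter fun c =>
        ρ < |(∑ k, W j c k * y j c k) / max (∑ k, W j c k) m - F j c|).card : ℝ)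
      ≤ ((univ.filter fun c => ∑ k, W D c k < m).card : ℝ) + 2 * A / (m * ρ * D) := by
  classical
  have hmono : ∀ c k, Antitone fun j => W j c k := fun c k =>
    antitone_nat_of_succ_le fun j => h1 j c k
  set T : ℕ → ℝ := fun j => ∑ c, ∑ k, W j c k with hT
  have htel : ∑ j ∈ range D, (T j - T (j+1)) = T 0 - T D := Finset.sum_range_sub' T D
  have hTD : 0 ≤ T D := Finset.sum_nonneg fun c _ => Finset.sum_nonneg fun k _ => h0 _ _ _
  have hDpos : (0:ℝ) < D := by exact_mod_cast hD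
  obtain ⟨j, hj, hjle⟩ : ∃ j ∈ range D, T j - T (j+1) ≤ A / D := by
    apply Finset.exists_le_of_sum_le (Finset.nonempty_range_iff.2 hD.ne')
    rw [htel, Finset.sum_const, card_range, nsmul_eq_mul]
    have : (D:ℝ) * (A / D) = A := by field_simp
    rw [this]; have : T 0 ≤ A := hA
    linarith
  have hjD : j < D := Finset.mem_range.1 hj
  refine ⟨j, hjD, ?_⟩
  set d : C → ℝ := fun c => ∑ k, (W j c k - W (j+1) c k) with hd
  have hd0 : ∀ c, 0 ≤ d c := fun c => Finset.sum_nonneg fun k _ => by linarith [h1 j c k]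
  have hdsum : ∑ c, d c = T j - T (j+1) := by
    simp only [hd, hT, Finset.sum_sub_distrib]
  set B2 := univ.filter fun c => m * (ρ / 2) < d c with hB2
  have hB2card : (B2.card : ℝ) ≤ 2 * A / (m * ρ * D) := by
    have h3 : (B2.card : ℝ) * (m * (ρ / 2)) ≤ ∑ c, d c := by
      calc (B2.card : ℝ) * (m * (ρ / 2)) = ∑ _c ∈ B2, m * (ρ / 2) := by rw [Finset.sum_const, nsmul_eq_mul]
        _ ≤ ∑ c ∈ B2, d c := Finset.sum_le_sum fun c hc => (Finset.mem_filter.1 hc).2.le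
        _ ≤ ∑ c, d c := Finset.sum_le_sum_of_subset_of_nonneg (Finset.subset_univ _)
            fun c _ _ => hd0 c
    rw [le_div_iff₀ (by positivity)]
    have h4 : (B2.card : ℝ) * (m * (ρ / 2)) ≤ A / D := by linarith
    rw [le_div_iff₀ hDpos] at h4
    linarith
  have hsub : (univ.filter fun c =>
        ρ < |(∑ k, W j c k * y j c k) / max (∑ k, W j c k) m - F j c|)
      ⊆ (univ.filter fun c => ∑ k, W D c k < m) ∪ B2 := by
    intro c hc
    by_contra hn
    simp only [hB2, Finset.mem_union, Finset.mem_filter, Finset.mem_univ, true_and, not_or,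
      not_lt] at hn hc
    have hW : m ≤ ∑ k, W j c k :=
      le_trans hn.1 (Finset.sum_le_sum fun k _ => hmono c k hjD.le)
    have := node_bound (W j c) (W (j+1) c) (y j c) (F j c) m ρ hm hρ (h0 _ c) (h1 j c) (hy0 j c)
      (hy1 j c) (hF0 j c) (hF1 j c) (hv j c) hW hn.2
    linarith
  have h5 := Finset.card_le_card hsub
  have h6 := Finset.card_union_le (univ.filter fun c => ∑ k, W D c k < m) B2
  have h7 : ((univ.filter fun c =>
        ρ < |(∑ k, W j c k * y j c k) / max (∑ k, W j c k) m - F j c|).card : ℝ)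
      ≤ ((univ.filter fun c => ∑ k, W D c k < m).card : ℝ) + B2.card := by
    exact_mod_cast le_trans h5 h6
  linarith

/-- expander tail: `a = A G` is close to the mean `mu ≥ eta` in square mean. -/
theorem mix_tail {C : Type*} [Fintype C] (G a : C → ℝ) (mu eta lam2 : ℝ) (heta : 0 < eta)
    (hl : 0 ≤ lam2) (hG0 : ∀ c, 0 ≤ G c) (hG1 : ∀ c, G c ≤ 1)
    (hmu : ∑ c, G c = mu * Fintype.card C) (hme : eta ≤ mu)
    (hA : ∑ c, (a c - mu)^2 ≤ lam2 * ∑ c, (G c - mu)^2) :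
    ((univ.filter fun c => a c < eta / 2).card : ℝ) ≤ 4 * lam2 / eta * Fintype.card C := by
  classical
  set n : ℝ := (Fintype.card C : ℝ) with hn
  have hn0 : 0 ≤ n := by positivity
  have hmu0 : 0 < mu := lt_of_lt_of_le heta hme
  have hvar : ∑ c, (G c - mu)^2 ≤ mu * n := by
    have h1 : ∑ c, (G c - mu)^2 ≤ ∑ c, (G c * (1 - 2 * mu) + mu^2) :=
      Finset.sum_le_sum fun c _ => by nlinarith [hG0 c, hG1 c]
    have h2 : ∑ c, (G c * (1 - 2 * mu) + mu^2) = mu * n * (1 - 2 * mu) + n * mu^2 := by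
      rw [Finset.sum_add_distrib, ← Finset.sum_mul, hmu, Finset.sum_const, nsmul_eq_mul,
        Finset.card_univ]
    nlinarith [mul_nonneg hn0 (sq_nonneg mu)]
  set B := univ.filter fun c => a c < eta / 2 with hB
  have h3 : (B.card : ℝ) * (mu / 2)^2 ≤ ∑ c, (a c - mu)^2 := by
    calc (B.card : ℝ) * (mu / 2)^2 = ∑ _c ∈ B, (mu / 2)^2 := by rw [Finset.sum_const, nsmul_eq_mul]
      _ ≤ ∑ c ∈ B, (a c - mu)^2 := Finset.sum_le_sum fun c hc => by
          have := (Finset.mem_filter.1 hc).2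
          nlinarith
      _ ≤ ∑ c, (a c - mu)^2 := Finset.sum_le_sum_of_subset_of_nonneg (Finset.subset_univ _)
          fun c _ _ => sq_nonneg _
  have h4 : (B.card : ℝ) * (mu / 2)^2 ≤ lam2 * (mu * n) :=
    le_trans h3 (le_trans hA (mul_le_mul_of_nonneg_left hvar hl))
  have h5 : (B.card : ℝ) * mu ≤ 4 * lam2 * n := by
    have : (B.card : ℝ) * mu * mu ≤ 4 * lam2 * n * mu := by nlinarith
    exact le_of_mul_le_mul_right this hmu0
  have h6 : (B.card : ℝ) * eta ≤ 4 * lam2 * n :=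
    le_trans (mul_le_mul_of_nonneg_left hme (by positivity)) h5
  rw [div_mul_eq_mul_div, le_div_iff₀ heta]; exact h6

end Pool.Agent.PP.Amp
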