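import Pool.Agent.MP_13199e_lc.Amp.Gen

/-! Amplifier: the general theorem. -/

set_option autoImplicit false

namespace Pool.Agent.PP.Amp
open Pool.Agent.MP_13199e_lc Pool.Agent.PolyT Pool.Agent.H82 Finset

variable {α I B : Type} [N487b59b3 α]

section
variable {D m : ℕ} (S : Src α I B) (en : Fin D × I ≃ Fin m) (l M thr : ℕ) (d0 : ℚ)
  (eX eH : Fin D → Ex (Var I B D))

/-- The decoder: the candidate of the first level with few estimated errors. -/
def dec (z : α × List ℚ) : List ℕ :=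
  pick (fun j => !ltB (rq d0 (List.range (S.n z.1)).length) ((List.range (S.n z.1)).filter
      fun c => ltB thr (evN M (vN S en l M z.1 z.2 c) (eH j))).length)
    (fun j => (List.range (S.n z.1)).map fun c => evN M (vN S en l M z.1 z.2 c) (eX j)) []
    (List.finRange D)

theorem p_dec : PolyT.Poly (dec S en l M thr d0 eX eH) := by
  have hn : PolyT.Poly fun z : α × List ℚ => List.range (S.n z.1) := S.pn.comp PolyT.Poly.id.fst
  have he : ∀ e, PolyT.Poly fun z : (α × List ℚ) × ℕ => evN M (vN S en l M z.1.1 z.1.2 z.2) e :=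
    p_evN M (v := fun z : (α × List ℚ) × ℕ => vN S en l M z.1.1 z.1.2 z.2) (p_vN S en l M)
  unfold dec
  refine p_pick (good := fun (z : α × List ℚ) j => !ltB (rq d0 (List.range (S.n z.1)).length)
      ((List.range (S.n z.1)).filter
        fun c => ltB thr (evN M (vN S en l M z.1 z.2 c) (eH j))).length)
    (out := fun (z : α × List ℚ) j =>
      (List.range (S.n z.1)).map fun c => evN M (vN S en l M z.1 z.2 c) (eX j)) []
    (fun j => ?_) (fun j => ?_) _
  · have h1 : PolyT.Poly fun z : α × List ℚ => rq d0 (List.range (S.n z.1)).length :=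
      p_rq (p_const d0) hn.length
    have h2 : PolyT.Poly fun z : (α × List ℚ) × ℕ =>
        ltB thr (evN M (vN S en l M z.1.1 z.1.2 z.2) (eH j)) := p_ltB (p_const thr) (he _)
    have h3 := PolyT.Poly.filter (c := fun (z : α × List ℚ) c =>
      ltB thr (evN M (vN S en l M z.1 z.2 c) (eH j))) h2 hn
    exact (p_ltB h1 h3.length).not
  · exact PolyT.Poly.map (g := fun (z : α × List ℚ) c => evN M (vN S en l M z.1 z.2 c) (eX j)) (he _) hn

end

theorem getD_mem {x : List ℚ} (h : ∀ y ∈ x, 0 ≤ y ∧ y ≤ 1) (i : ℕ) :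
    0 ≤ x.getD i 0 ∧ x.getD i 0 ≤ 1 := by
  rw [List.getD_eq_getElem?_getD]
  cases hi : x[i]? with
  | none => exact ⟨le_rfl, zero_le_one⟩
  | some y => exact h y (List.mem_of_getElem? hi)

theorem exists_small {K : Type} [Fintype K] (f : K → ℕ) (ρ : ℝ) (hρ : 0 < ρ) :
    ∃ M : ℕ, 0 < M ∧ 1 / (M : ℝ) ≤ ρ ∧ ∀ k, ((f k : ℝ) + 1) * (1 / M) ≤ ρ := by
  obtain ⟨M, hM⟩ := exists_nat_gt ((∑ k, (f k : ℝ) + 1) / ρ)
  have h0 : (0:ℝ) < M := lt_trans (by positivity) hM
  rw [div_lt_iff₀ hρ] at hM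
  have h1 : (0:ℝ) ≤ ∑ k, (f k : ℝ) := by positivity
  refine ⟨M, by exact_mod_cast h0, by rw [div_le_iff₀ h0]; linarith, fun k => ?_⟩
  have := Finset.single_le_sum (f := fun k => (f k : ℝ)) (fun k _ => by positivity) (mem_univ k)
  rw [mul_one_div, div_le_iff₀ h0]; linarith

theorem gen [Fintype I] [Nonempty I] (F : (B → ℝ) → ℝ → ℝ → ℝ)
    (hF : Continuous fun z : (B → ℝ) × ℝ × ℝ => F z.1 z.2.1 z.2.2)
    (hF0 : ∀ t r r', 0 ≤ F t r r') (hF1 : ∀ t r r', F t r r' ≤ 1)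
    (η d0 : ℚ) (lam2 ρ : ℝ) (hη : 0 < η) (hd0 : 0 < d0) (hρ : 0 < ρ) (hl0 : 0 ≤ lam2)
    (hl : lam2 ≤ η * d0 / 8) (S : Src α I B) :
    ∃ (s M : ℕ) (ε : ℚ) (f : α → GCirc) (g : α × List ℚ → List ℕ), 0 < s ∧ 0 < M ∧ 0 < ε ∧
      PolyT.Poly f ∧ PolyT.Poly g ∧ ∀ a, S.Valid lam2 a → GWf (f a) ∧ (f a).length = S.n a * s ∧
        ∀ x, BSol ε η s (f a) x → ∃ y : ℕ → ℝ, (∀ c, 0 ≤ y c ∧ y c ≤ 1) ∧
          (∀ c < S.n a, |((g (a, x)).getD c 0 : ℝ) / M - y c| ≤ ρ / 4) ∧
          ((univ.filter fun c : Fin (S.n a) => 2 * ρ < |y c - F (fun β => S.ty a c β)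
            (y ((S.st a).a c)) (y ((S.st a).b c))|).card : ℝ) ≤ d0 * S.n a := by
  classical
  obtain ⟨D, e, eX, eH, hD, eok, xok, hok, hc⟩ := core (I := I) F hF hF0 hF1 η d0 lam2 ρ
    (by exact_mod_cast hη) (by exact_mod_cast hd0) hρ hl0 hl
  have : Nonempty (Fin D) := ⟨⟨0, hD⟩⟩
  set m := Fintype.card (Fin D × I) with hm
  have hm0 : 0 < m := Fintype.card_pos
  let en : Fin D × I ≃ Fin m := Fintype.equivFin _
  set l := ∑ k, (e k).size + 1 with hl'
  have hl : ∀ k, (e k).size < l := fun k => Nat.lt_succ_of_le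
    (Finset.single_le_sum (f := fun k => (e k).size) (fun _ _ => Nat.zero_le _) (mem_univ k))
  have hl0 : 0 < l := Nat.succ_pos _
  obtain ⟨E, hE, -, hE'⟩ := exists_small (fun k => (e k).size) (ρ / 8) (by positivity)
  obtain ⟨M, hM, hM1, hM'⟩ := exists_small
    (fun j : Fin D => (eX j).size + (eH j).size) (ρ / 8) (by positivity)
  have hMr : (0:ℝ) < M := by exact_mod_cast hM
  set thr := ⌈5 * ρ / 4 * M⌉₊ with hthr
  refine ⟨m * l, M, 1 / E, circ S en l e, dec S en l M thr d0 eX eH, Nat.mul_pos hm0 hl0, hM,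
    by positivity, p_circ S en l e, p_dec S en l M thr d0 eX eH, fun a ha => ?_⟩
  obtain ⟨hn, hv, pi, hmix, hpi⟩ := ha
  have hlen := circ_length S en hl a
  let a' : Fin (S.n a) → Fin (S.n a) := fun v => ⟨(S.st a).a v, (hv v v.2).1⟩
  let b' : Fin (S.n a) → Fin (S.n a) := fun v => ⟨(S.st a).b v, (hv v v.2).2.1⟩
  have hw : ∀ (u : Fin (S.n a)) w, ((walk (pst a' b' pi) u w : Fin (S.n a)) : ℕ)
      = walk (S.st a) u w := walk_val _ _ (fun _ => rfl) (fun _ => rfl) (fun i v => (hpi i v).1)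
        (fun i v => (hpi i v).2)
  have hwl : ∀ u < S.n a, ∀ w, walk (S.st a) u w < S.n a := fun u hu w => by
    rw [← hw ⟨u, hu⟩ w]; exact Fin.is_lt _
  have hN : 0 < S.n a * (m * l) := Nat.mul_pos hn (Nat.mul_pos hm0 hl0)
  refine ⟨⟨List.ne_nil_of_length_pos (hlen ▸ hN), fun g hg => ?_⟩, hlen, fun x hx => ?_⟩
  · rw [hlen]
    obtain ⟨u, hu, hg⟩ := List.mem_flatMap.1 hg
    obtain ⟨κ, -, hg⟩ := List.mem_flatMap.1 hg
    have hu := List.mem_range.1 hu
    refine region_wf _ _ ?_ (eok _) (slot_lt hu κ (hl _)) g hg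
    rintro ⟨w, β | k⟩
    · exact ⟨by simp [leaf], (hv _ (hwl u hu w)).2.2 β |>.1, (hv _ (hwl u hu w)).2.2 β |>.2, hN, hN⟩
    · exact ⟨by simp [leaf], le_rfl, zero_le_one, slot_lt (hwl u hu w) (en k) hl0, hN⟩
  obtain ⟨⟨-, hx01⟩, hx⟩ := hx
  rw [hlen, Nat.mul_div_cancel _ (Nat.mul_pos hm0 hl0), ncard_fin] at hx
  let ty : Fin (S.n a) → B → ℝ := fun v β => S.ty a v β
  let Y : Fin (S.n a) → Fin D × I → ℝ := fun v k => x.getD (slot en l v k) 0
  obtain ⟨X, hX0, hX, hS⟩ := hc (Fin (S.n a)) a' b' pi ty Y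
    (fun v β => by simp only [ty]; exact_mod_cast (hv v v.2).2.2 β)
    (fun v k => by simp only [Y]; exact_mod_cast getD_mem hx01 _)
  obtain ⟨j₀, hj₀⟩ := hS _ hmix (by rw [Fintype.card_fin]; exact_mod_cast hx) fun u hu k => by
    have h1 := region_close _ (view (pst a' b' pi) ty Y u) ?_ (eok k)
      (blk_ok S en hl u.2 (mem_filter.1 hu).2 k)
    · refine le_trans h1 ?_
      have := hE' k
      push_cast; exact this
    · rintro ⟨w, β | k⟩ v h
      · simp only [view, ty, hw]; exact_mod_cast h.1 rfl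
      · simp only [view, Y, hw]; exact_mod_cast h.2.2.1 rfl
  rw [Fintype.card_fin] at hj₀
  have hvN : ∀ (c : Fin (S.n a)) v,
      |(vN S en l M a x c v : ℝ) / M - view (pst a' b' pi) ty Y c v| ≤ 1 / M := by
    rintro c ⟨w, β | k⟩
    · simp only [view, ty, hw, vN]; exact rq_one ((hv _ (hwl c c.2 w)).2.2 β).1 hM
    · simp only [view, Y, hw, vN]; exact rq_one (getD_mem hx01 _).1 hM
  have hpos : (0:ℝ) ≤ 1 / M := by positivity
  have cX : ∀ j (c : Fin (S.n a)), |(evN M (vN S en l M a x c) (eX j) : ℝ) / M - X j c| ≤ ρ / 4 := by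
    intro j c
    have h1 := run_err (evN_run hM (hvN c) _ (xok j)) (xok j)
    have h2 := hM' j
    have h3 := abs_sub_le ((evN M (vN S en l M a x c) (eX j) : ℝ) / M)
      ((eX j).ev (view (pst a' b' pi) ty Y c)) (X j c)
    have h4 := mul_nonneg (Nat.cast_nonneg (α := ℝ) (eH j).size) hpos
    push_cast at h2
    linarith [(hX j c).1]
  have cH : ∀ j (c : Fin (S.n a)), abs ((evN M (vN S en l M a x c) (eH j) : ℝ) / M -
      |X j c - F (ty c) (X j (a' c)) (X j (b' c))|) ≤ ρ / 4 := by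
    intro j c
    have h1 := run_err (evN_run hM (hvN c) _ (hok j)) (hok j)
    have h2 := hM' j
    have h3 := abs_sub_le ((evN M (vN S en l M a x c) (eH j) : ℝ) / M)
      ((eH j).ev (view (pst a' b' pi) ty Y c)) |X j c - F (ty c) (X j (a' c)) (X j (b' c))|
    have h4 := mul_nonneg (Nat.cast_nonneg (α := ℝ) (eX j).size) hpos
    push_cast at h2
    linarith [(hX j c).2]
  have t1 : 5 * ρ / 4 * M ≤ thr := Nat.le_ceil _
  have t2 : (thr : ℝ) < 5 * ρ / 4 * M + 1 := Nat.ceil_lt_add_one (by positivity)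
  have hg : ∀ j, (!ltB (rq d0 (List.range (S.n a)).length) ((List.range (S.n a)).filter
      fun c => ltB thr (evN M (vN S en l M a x c) (eH j))).length) = true ↔
      ((univ.filter fun c : Fin (S.n a) => thr < evN M (vN S en l M a x c) (eH j)).card : ℝ)
        ≤ d0 * S.n a := fun j => by
    rw [Bool.not_eq_true', ltB_false_iff, le_rq hd0.le, length_filter_fin, List.length_range]
    simp only [ltB_iff]
  have hj₁ : ((univ.filter fun c : Fin (S.n a) =>
      thr < evN M (vN S en l M a x c) (eH j₀)).card : ℝ) ≤ d0 * S.n a := by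
    refine le_trans (Nat.cast_le.2 (card_le_card fun c hc => mem_filter.2 ⟨mem_univ _, ?_⟩)) hj₀
    have h1 : (thr : ℝ) < evN M (vN S en l M a x c) (eH j₀) := by
      exact_mod_cast (mem_filter.1 hc).2
    have h2 : 5 * ρ / 4 < (evN M (vN S en l M a x c) (eH j₀) : ℝ) / M := by
      rw [lt_div_iff₀ hMr]; linarith
    linarith [(abs_le.1 (cH j₀ c)).2]
  obtain ⟨j, hj, hd⟩ := pick_spec
    (fun j => !ltB (rq d0 (List.range (S.n a)).length) ((List.range (S.n a)).filter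
      fun c => ltB thr (evN M (vN S en l M a x c) (eH j))).length)
    (fun j => (List.range (S.n a)).map fun c => evN M (vN S en l M a x c) (eX j)) []
    (List.finRange D) ⟨j₀, List.mem_finRange _, (hg j₀).2 hj₁⟩
  refine ⟨fun c => if h : c < S.n a then X j ⟨c, h⟩ else 0, fun c => ?_, fun c hc => ?_,
    le_trans ?_ ((hg j).1 hj)⟩
  · beta_reduce
    split_ifs
    · exact hX0 _ _
    · exact ⟨le_rfl, zero_le_one⟩
  · have : (dec S en l M thr d0 eX eH (a, x)).getD c 0 = evN M (vN S en l M a x c) (eX j) := by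
      rw [show dec S en l M thr d0 eX eH (a, x) = _ from hd]
      simp [List.getD_eq_getElem?_getD, hc]
    rw [this]
    beta_reduce
    rw [dif_pos hc]
    exact cX j ⟨c, hc⟩
  · refine Nat.cast_le.2 (card_le_card fun c hc => mem_filter.2 ⟨mem_univ _, ?_⟩)
    have h1 := (mem_filter.1 hc).2
    beta_reduce at h1
    rw [dif_pos c.2, dif_pos (hv c c.2).1, dif_pos (hv c c.2).2.1] at h1
    have h2 : 2 * ρ < |X j c - F (ty c) (X j (a' c)) (X j (b' c))| := h1
    have h3 : 7 * ρ / 4 < (evN M (vN S en l M a x c) (eH j) : ℝ) / M := by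
      linarith [(abs_le.1 (cH j c)).1]
    rw [lt_div_iff₀ hMr] at h3
    rw [div_le_iff₀ hMr] at hM1
    have : (thr : ℝ) < evN M (vN S en l M a x c) (eH j) := by nlinarith
    exact_mod_cast this

end Pool.Agent.PP.Amp
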