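import Mathlib

/-! Amplifier: tree programs over the arithmetic gates are dense in the continuous functions. -/

set_option autoImplicit false

namespace Pool.Agent.PP.Amp

/-- tree programs over the gates const, scale, truncated sum, truncated difference -/
inductive Ex (P : Type) : Type
  | var (p : P) : Ex P
  | const (a : ℚ) : Ex P
  | scale (a : ℚ) (e : Ex P) : Ex P
  | add (e f : Ex P) : Ex P
  | sub (e f : Ex P) : Ex P

variable {P : Type}

def Ex.ok : Ex P → Prop
  | .var _ => True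
  | .const a => 0 ≤ a ∧ a ≤ 1
  | .scale a e => 0 ≤ a ∧ a ≤ 1 ∧ e.ok
  | .add e f => e.ok ∧ f.ok
  | .sub e f => e.ok ∧ f.ok

def Ex.size : Ex P → ℕ
  | .var _ => 1
  | .const _ => 1
  | .scale _ e => e.size + 1
  | .add e f => e.size + f.size + 1
  | .sub e f => e.size + f.size + 1

noncomputable def Ex.ev (x : P → ℝ) : Ex P → ℝ
  | .var p => x p
  | .const a => a
  | .scale a e => a * e.ev x
  | .add e f => min (e.ev x + f.ev x) 1
  | .sub e f => max (e.ev x - f.ev x) 0

/-- a run in which every gate is `eps`-satisfied -/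
inductive Run (eps : ℝ) (x : P → ℝ) : Ex P → ℝ → Prop
  | var (p : P) (v : ℝ) : |v - x p| ≤ eps → Run eps x (.var p) v
  | const (a : ℚ) (v : ℝ) : |v - a| ≤ eps → Run eps x (.const a) v
  | scale (a : ℚ) (e : Ex P) (u v : ℝ) : Run eps x e u → |v - a * u| ≤ eps → Run eps x (.scale a e) v
  | add (e f : Ex P) (u u' v : ℝ) : Run eps x e u → Run eps x f u' → |v - min (u + u') 1| ≤ eps →
      Run eps x (.add e f) v
  | sub (e f : Ex P) (u u' v : ℝ) : Run eps x e u → Run eps x f u' → |v - max (u - u') 0| ≤ eps →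
      Run eps x (.sub e f) v

theorem run_err {eps : ℝ} {x : P → ℝ} {e : Ex P} {v : ℝ} (h : Run eps x e v) (ho : e.ok) :
    |v - e.ev x| ≤ e.size * eps := by
  induction h with
  | var p v h => simpa [Ex.ev, Ex.size] using h
  | const a v h => simpa [Ex.ev, Ex.size] using h
  | scale a e u v _ h ih =>
    obtain ⟨a0, a1, ho⟩ := ho
    have ih := ih ho
    have a0' : (0:ℝ) ≤ a := by exact_mod_cast a0
    have a1' : (a:ℝ) ≤ 1 := by exact_mod_cast a1
    have h1 : |(a:ℝ) * u - a * e.ev x| ≤ e.size * eps := by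
      rw [← mul_sub, abs_mul, abs_of_nonneg a0']
      nlinarith [abs_nonneg (u - e.ev x)]
    have := abs_sub_le v (a * u) (a * e.ev x)
    simp only [Ex.ev, Ex.size]; push_cast; linarith
  | add e f u u' v _ _ h ih ih' =>
    have ih := abs_le.1 (ih ho.1)
    have ih' := abs_le.1 (ih' ho.2)
    have h := abs_le.1 h
    simp only [Ex.ev, Ex.size]; push_cast
    rw [abs_le]
    rcases le_total (u + u') 1 with h1 | h1 <;> rcases le_total (e.ev x + f.ev x) 1 with h2 | h2 <;>
      simp only [min_eq_left, min_eq_right, h1, h2] at h ⊢ <;> constructor <;> linarith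
  | sub e f u u' v _ _ h ih ih' =>
    have ih := abs_le.1 (ih ho.1)
    have ih' := abs_le.1 (ih' ho.2)
    have h := abs_le.1 h
    simp only [Ex.ev, Ex.size]; push_cast
    rw [abs_le]
    rcases le_total (u - u') 0 with h1 | h1 <;> rcases le_total (e.ev x - f.ev x) 0 with h2 | h2 <;>
      simp only [max_eq_left, max_eq_right, h1, h2] at h ⊢ <;> constructor <;> linarith

theorem ev_mem {x : P → ℝ} (h0 : ∀ p, 0 ≤ x p) (h1 : ∀ p, x p ≤ 1) :
    ∀ e : Ex P, e.ok → 0 ≤ e.ev x ∧ e.ev x ≤ 1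
  | .var p, _ => ⟨h0 p, h1 p⟩
  | .const a, h => ⟨by simp only [Ex.ev]; exact_mod_cast h.1, by simp only [Ex.ev]; exact_mod_cast h.2⟩
  | .scale a e, h => by
      obtain ⟨b0, b1⟩ := ev_mem h0 h1 e h.2.2
      have a0' : (0:ℝ) ≤ a := by exact_mod_cast h.1
      have a1' : (a:ℝ) ≤ 1 := by exact_mod_cast h.2.1
      simp only [Ex.ev]; constructor <;> nlinarith
  | .add e f, h => by
      obtain ⟨b0, _⟩ := ev_mem h0 h1 e h.1
      obtain ⟨c0, _⟩ := ev_mem h0 h1 f h.2
      simp only [Ex.ev]; exact ⟨le_min (by linarith) zero_le_one, min_le_right _ _⟩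
  | .sub e f, h => by
      obtain ⟨_, b1⟩ := ev_mem h0 h1 e h.1
      obtain ⟨c0, _⟩ := ev_mem h0 h1 f h.2
      simp only [Ex.ev]; exact ⟨le_max_right _ _, max_le (by linarith) zero_le_one⟩

noncomputable def tr (v : ℝ) : ℝ := max (min v 1) 0

theorem tr_lip (u v : ℝ) : |tr u - tr v| ≤ |u - v| := by
  unfold tr
  have h1 := abs_max_sub_max_le_abs (min u 1) (min v 1) 0
  have h2 : |min u 1 - min v 1| ≤ |u - v| := by
    have := abs_min_sub_min_le_max u 1 v 1
    simpa using this
  linarith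

def dbl : ℕ → Ex P → Ex P
  | 0, e => e
  | n+1, e => .add (dbl n e) (dbl n e)

theorem dbl_ok (e : Ex P) (h : e.ok) : ∀ n, (dbl n e).ok
  | 0 => h
  | n+1 => ⟨dbl_ok e h n, dbl_ok e h n⟩

theorem dbl_ev (x : P → ℝ) (e : Ex P) (h1 : e.ev x ≤ 1) :
    ∀ n, (dbl n e).ev x = min (2^n * e.ev x) 1
  | 0 => by simp [dbl, h1]
  | n+1 => by
      simp only [dbl, Ex.ev, dbl_ev x e h1 n]
      rcases le_total (2^n * e.ev x) 1 with h | h
      · rw [min_eq_left h]; congr 1; ring
      · rw [min_eq_right h, min_eq_right (by norm_num), min_eq_right]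
        rw [pow_succ]; linarith

theorem aff_rat (p : P) (a b : ℚ) : ∃ e : Ex P, e.ok ∧
    ∀ x : P → ℝ, (∀ p, 0 ≤ x p) → (∀ p, x p ≤ 1) → e.ev x = tr (a * x p + b) := by
  obtain ⟨n, hn⟩ : ∃ n : ℕ, |a| + |b| ≤ 2^n := by
    obtain ⟨n, hn⟩ := pow_unbounded_of_one_lt (|a| + |b|) (by norm_num : (1:ℚ) < 2)
    exact ⟨n, hn.le⟩
  have hM : (0:ℚ) < 2^n := by positivity
  have hle : ∀ c : ℚ, c ≤ |a| + |b| → max c 0 / 2^n ≤ 1 := fun c hc => by
    rw [div_le_one hM]; exact max_le (le_trans hc hn) hM.le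
  have hge : ∀ c : ℚ, 0 ≤ max c 0 / 2^n := fun c => by positivity
  have ha := le_abs_self a
  have ha' := neg_le_abs a
  have hb := le_abs_self b
  have hb' := neg_le_abs b
  have ha0 := abs_nonneg a
  have hb0 := abs_nonneg b
  let e0 : Ex P := .sub (.add (.scale (max a 0 / 2^n) (.var p)) (.const (max b 0 / 2^n)))
    (.add (.scale (max (-a) 0 / 2^n) (.var p)) (.const (max (-b) 0 / 2^n)))
  have hok : e0.ok := ⟨⟨⟨hge _, hle _ (by linarith), trivial⟩, hge _, hle _ (by linarith)⟩,
    ⟨hge _, hle _ (by linarith), trivial⟩, hge _, hle _ (by linarith)⟩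
  refine ⟨dbl n e0, dbl_ok _ hok n, fun x h0 h1 => ?_⟩
  rw [dbl_ev x e0 (ev_mem h0 h1 e0 hok).2]
  have hM' : (0:ℝ) < 2^n := by positivity
  have hn' : |(a:ℝ)| + |(b:ℝ)| ≤ 2^n := by exact_mod_cast hn
  have key : ∀ c d : ℝ, |c| + |d| ≤ 2^n →
      min (max c 0 / 2^n * x p + max d 0 / 2^n) 1 = (max c 0 * x p + max d 0) / 2^n := by
    intro c d h
    have hc : max c 0 ≤ |c| := max_le (le_abs_self c) (abs_nonneg c)
    have hd : max d 0 ≤ |d| := max_le (le_abs_self d) (abs_nonneg d)
    have e1 : max c 0 / 2^n * x p + max d 0 / 2^n = (max c 0 * x p + max d 0) / 2^n := by ring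
    rw [e1, min_eq_left]
    rw [div_le_one hM']
    nlinarith [h1 p, h0 p, le_max_right c 0]
  have e2 : e0.ev x = max ((a * x p + b) / 2^n) 0 := by
    simp only [e0, Ex.ev]; push_cast
    rw [key a b hn', key (-a) (-b) (by simpa using hn')]
    congr 1
    have h3 : max (a:ℝ) 0 - max (-(a:ℝ)) 0 = a := max_zero_sub_max_neg_zero_eq_self _
    have h4 : max (b:ℝ) 0 - max (-(b:ℝ)) 0 = b := max_zero_sub_max_neg_zero_eq_self _
    rw [← sub_div]; congr 1
    linear_combination (x p) * h3 + h4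
  rw [e2]; unfold tr
  rcases le_total ((a:ℝ) * x p + b) 0 with h | h
  · have : ((a:ℝ) * x p + b) / 2^n ≤ 0 := div_nonpos_of_nonpos_of_nonneg h hM'.le
    rw [max_eq_right this, max_eq_right (le_trans (min_le_left _ _) h)]; simp
  · have : 0 ≤ ((a:ℝ) * x p + b) / 2^n := by positivity
    rw [max_eq_left this, max_eq_left (le_min h zero_le_one)]
    congr 1; field_simp

abbrev Cube (P : Type) : Type := P → unitInterval

def Good (g : Cube P → ℝ) : Prop :=
  ∀ t : ℝ, 0 < t → ∃ e : Ex P, e.ok ∧ ∀ x : Cube P, |e.ev (fun p => x p) - tr (g x)| ≤ t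

theorem good_aff (p : P) (a b : ℝ) : Good fun x : Cube P => a * x p + b := by
  intro t ht
  obtain ⟨a', ha⟩ := exists_rat_near a (half_pos ht)
  obtain ⟨b', hb⟩ := exists_rat_near b (half_pos ht)
  obtain ⟨e, ho, he⟩ := aff_rat p a' b'
  refine ⟨e, ho, fun x => ?_⟩
  rw [he _ (fun p => (x p).2.1) (fun p => (x p).2.2)]
  refine le_trans (tr_lip _ _) ?_
  have h0 := (x p).2.1
  have h1 := (x p).2.2
  have ha := abs_lt.1 ha
  have hb := abs_lt.1 hb
  rw [abs_le]; constructor <;> nlinarith [ha.1, ha.2, hb.1, hb.2]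

theorem good_const (b : ℝ) : Good fun _ : Cube P => b := by
  intro t ht
  have h0 : 0 ≤ tr b := le_max_right _ _
  have h1 : tr b ≤ 1 := max_le (min_le_right _ _) zero_le_one
  obtain ⟨q, hq⟩ := exists_rat_near (tr b) ht
  refine ⟨.const (max (min q 1) 0), ⟨le_max_right _ _, max_le (min_le_right _ _) zero_le_one⟩,
    fun x => ?_⟩
  have e1 : tr (tr b) = tr b := by
    unfold tr at h0 h1 ⊢; rw [min_eq_left h1, max_eq_left h0]
  have := tr_lip q (tr b)
  rw [e1] at this
  simp only [Ex.ev]; push_cast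
  rw [abs_sub_comm] at hq
  exact le_trans this hq.le

theorem tr_min (u v : ℝ) : tr (min u v) = min (tr u) (tr v) := by
  have : Monotone tr := fun a b h => max_le_max (min_le_min h le_rfl) le_rfl
  exact this.map_min
theorem tr_max (u v : ℝ) : tr (max u v) = max (tr u) (tr v) := by
  have : Monotone tr := fun a b h => max_le_max (min_le_min h le_rfl) le_rfl
  exact this.map_max

theorem good_min {g h : Cube P → ℝ} (hg : Good g) (hh : Good h) : Good fun x => min (g x) (h x) := by
  intro t ht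
  obtain ⟨e, eo, he⟩ := hg t ht
  obtain ⟨f, fo, hf⟩ := hh t ht
  refine ⟨.sub e (.sub e f), ⟨eo, eo, fo⟩, fun x => ?_⟩
  have a := ev_mem (x := fun p => (x p : ℝ)) (fun p => (x p).2.1) (fun p => (x p).2.2) e eo
  have b := ev_mem (x := fun p => (x p : ℝ)) (fun p => (x p).2.1) (fun p => (x p).2.2) f fo
  have e1 : (Ex.sub e (.sub e f)).ev (fun p => (x p : ℝ))
      = min (e.ev fun p => x p) (f.ev fun p => x p) := by
    simp only [Ex.ev]
    rcases le_total (e.ev fun p => x p) (f.ev fun p => x p) with h | h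
    · rw [max_eq_right (sub_nonpos.2 h), min_eq_left h, sub_zero, max_eq_left a.1]
    · rw [max_eq_left (sub_nonneg.2 h), min_eq_right h, sub_sub_cancel, max_eq_left b.1]
  rw [e1, tr_min]
  exact le_trans (abs_min_sub_min_le_max _ _ _ _) (max_le (he x) (hf x))

theorem good_max {g h : Cube P → ℝ} (hg : Good g) (hh : Good h) : Good fun x => max (g x) (h x) := by
  intro t ht
  obtain ⟨e, eo, he⟩ := hg t ht
  obtain ⟨f, fo, hf⟩ := hh t ht
  refine ⟨.add f (.sub e f), ⟨fo, eo, fo⟩, fun x => ?_⟩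
  have a := ev_mem (x := fun p => (x p : ℝ)) (fun p => (x p).2.1) (fun p => (x p).2.2) e eo
  have b := ev_mem (x := fun p => (x p : ℝ)) (fun p => (x p).2.1) (fun p => (x p).2.2) f fo
  have e1 : (Ex.add f (.sub e f)).ev (fun p => (x p : ℝ))
      = max (e.ev fun p => x p) (f.ev fun p => x p) := by
    simp only [Ex.ev]
    rcases le_total (e.ev fun p => x p) (f.ev fun p => x p) with h | h
    · rw [max_eq_right (sub_nonpos.2 h), max_eq_right h, add_zero, min_eq_left b.2]
    · rw [max_eq_left (sub_nonneg.2 h), max_eq_left h, add_sub_cancel, min_eq_left a.2]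
  rw [e1, tr_max]
  exact le_trans (abs_max_sub_max_le_max _ _ _ _) (max_le (he x) (hf x))

/-- every continuous function on the cube is, after truncation, a uniform limit of programs -/
theorem good_all (f : C(Cube P, ℝ)) : Good f := by
  let L : Set C(Cube P, ℝ) := {g | Good g}
  have hL : closure L = ⊤ := by
    apply ContinuousMap.sublattice_closure_eq_top L
    · exact ⟨ContinuousMap.const _ 0, good_const 0⟩
    · intro g hg h hh; exact good_min hg hh
    · intro g hg h hh; exact good_max hg hh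
    · intro v x y
      by_cases hxy : x = y
      · subst hxy
        exact ⟨ContinuousMap.const _ (v x), good_const _, rfl, rfl⟩
      · obtain ⟨p, hp⟩ := Function.ne_iff.1 hxy
        have hp' : (x p : ℝ) - y p ≠ 0 := sub_ne_zero.2 fun h => hp (Subtype.ext h)
        refine ⟨⟨fun z => (v x - v y) / ((x p : ℝ) - y p) * z p
          + (v y - (v x - v y) / ((x p : ℝ) - y p) * y p), by fun_prop⟩, good_aff p _ _, ?_, ?_⟩
        · show (v x - v y) / ((x p : ℝ) - y p) * x p
            + (v y - (v x - v y) / ((x p : ℝ) - y p) * y p) = v x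
          field_simp; ring
        · show (v x - v y) / ((x p : ℝ) - y p) * y p
            + (v y - (v x - v y) / ((x p : ℝ) - y p) * y p) = v y
          ring
  intro t ht
  have hf : f ∈ closure L := by rw [hL]; trivial
  obtain ⟨g, hg, hd⟩ := Metric.mem_closure_iff.1 hf (t/2) (half_pos ht)
  obtain ⟨e, eo, he⟩ := hg (t/2) (half_pos ht)
  refine ⟨e, eo, fun x => ?_⟩
  have h1 := tr_lip (g x) (f x)
  have h2 : |g x - f x| ≤ t/2 := by
    have := ContinuousMap.dist_apply_le_dist (f := g) (g := f) x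
    rw [Real.dist_eq, dist_comm] at this; linarith
  have := abs_sub_le (e.ev fun p => x p) (tr (g x)) (tr (f x))
  linarith [he x]

end Pool.Agent.PP.Amp
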