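import Pool.Agent.MP_13199e_lc.Amp.Ideal
import Pool.Agent.MP_13199e_lc.Defs

/-! Amplifier: a continuous selection for the gate constraints. -/

set_option autoImplicit false

namespace Pool.Agent.PP.Amp
open Pool.Agent.MP_13199e_lc

noncomputable def rp (e v : ℝ) : ℝ := tr ((v - (e / 2 + 1 / 4)) / (1 / 2 - e))

/-- The continuous gate functions. -/
noncomputable def gf (e α a b : ℝ) : Fin 9 → ℝ :=
  ![α, α * a, a, min (a + b) 1, max (a - b) 0, tr ((b - a + e / 2) / e), max (rp e a) (rp e b),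
    min (rp e a) (rp e b), 1 - rp e a]

noncomputable def FF (e : ℝ) (t : Option (Fin 9) → ℝ) (a b : ℝ) : ℝ :=
  tr (∑ k, t (some k) * gf e (t none) a b k)

theorem FF_cont (e : ℝ) : Continuous fun z : (Option (Fin 9) → ℝ) × ℝ × ℝ => FF e z.1 z.2.1 z.2.2 := by
  have h : ∀ k, Continuous fun z : (Option (Fin 9) → ℝ) × ℝ × ℝ => gf e (z.1 none) z.2.1 z.2.2 k := by
    intro k
    fin_cases k <;> simp only [gf, rp, tr] <;> simp <;> fun_prop
  unfold FF tr
  fun_prop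

/-- The type variables of a gate. -/
def bits (k : ℕ) (α : ℚ) : Option (Fin 9) → ℚ
  | none => α
  | some j => if k = j then 1 else 0

theorem FF_bits (e : ℝ) (k : Fin 9) (α : ℚ) (a b : ℝ) :
    FF e (fun β => bits k α β) a b = tr (gf e α a b k) := by
  simp only [FF, bits, Fin.val_inj]
  congr 1
  rw [Finset.sum_eq_single k] <;> simp +contextual [eq_comm]

theorem tr_zero {v : ℝ} (h : v ≤ 0) : tr v = 0 := max_eq_right (le_trans (min_le_left _ _) h)
theorem tr_one {v : ℝ} (h : 1 ≤ v) : tr v = 1 := by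
  unfold tr; rw [min_eq_right h, max_eq_left zero_le_one]

theorem sel {e : ℚ} {ρ : ℝ} (he : 0 < e) (he' : e < 1 / 2) (hρ : 0 < ρ) (h1 : 3 * ρ ≤ e)
    (h2 : ρ ≤ 1 - 2 * e) {k : ℕ} (hk : k < 9) {α a' b' c' : ℚ} (α0 : 0 ≤ α) (α1 : α ≤ 1)
    (a0 : 0 ≤ a') (a1 : a' ≤ 1) (b0 : 0 ≤ b') {a b c : ℝ} (ha : |a' - a| ≤ ρ / 4)
    (hb : |b' - b| ≤ ρ / 4) (hc : |c' - c| ≤ ρ / 4)
    (h : |c - FF e (fun β => bits k α β) a b| ≤ 2 * ρ) : GOk e k α a' b' c' := by
  have E0 : (0:ℝ) < e := by exact_mod_cast he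
  have E1 : (0:ℝ) < 1 / 2 - e := by
    have : ((e : ℚ) : ℝ) < ((1 / 2 : ℚ) : ℝ) := by exact_mod_cast he'
    push_cast at this; linarith
  have A0 : (0:ℝ) ≤ α := by exact_mod_cast α0
  have A1 : (α:ℝ) ≤ 1 := by exact_mod_cast α1
  have X0 : (0:ℝ) ≤ a' := by exact_mod_cast a0
  have X1 : (a':ℝ) ≤ 1 := by exact_mod_cast a1
  have Y0 : (0:ℝ) ≤ b' := by exact_mod_cast b0
  rw [show k = ((⟨k, hk⟩ : Fin 9) : ℕ) from rfl, FF_bits] at h
  have key : ∀ T : ℚ, 0 ≤ (T:ℝ) → (T:ℝ) ≤ 1 → |gf e α a b ⟨k, hk⟩ - T| ≤ ρ / 2 → |c' - T| ≤ e := by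
    intro T t0 t1 hT
    have := tr_lip (gf e α a b ⟨k, hk⟩) T
    rw [tr_id t0 t1] at this
    have u1 := abs_sub_le (c' : ℝ) c T
    have u2 := abs_sub_le c (tr (gf e α a b ⟨k, hk⟩)) T
    have : |(c' : ℝ) - T| ≤ e := by linarith
    exact_mod_cast this
  have k1 : gf e α a b ⟨k, hk⟩ = 1 → |c' - 1| ≤ e := fun hh =>
    key 1 (by simp) (by simp) (by rw [hh]; simp; positivity)
  have k0 : gf e α a b ⟨k, hk⟩ = 0 → |c'| ≤ e := fun hh => by
    simpa using key 0 (by simp) (by simp) (by rw [hh]; simp; positivity)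
  have r1 : ∀ (v' : ℚ) (v : ℝ), |v' - v| ≤ ρ / 4 → |v' - 1| ≤ e → rp e v = 1 := by
    intro v' v hv hv'
    have : |(v' : ℝ) - 1| ≤ e := by exact_mod_cast hv'
    refine tr_one ((one_le_div E1).2 ?_)
    linarith [(abs_le.1 hv).2, (abs_le.1 this).1]
  have r0 : ∀ (v' : ℚ) (v : ℝ), |v' - v| ≤ ρ / 4 → |v'| ≤ e → rp e v = 0 := by
    intro v' v hv hv'
    have : |(v' : ℝ)| ≤ e := by exact_mod_cast hv'
    refine tr_zero (div_nonpos_of_nonpos_of_nonneg ?_ E1.le)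
    linarith [(abs_le.1 hv).1, (abs_le.1 this).2]
  have ra := tr_nonneg ((a - (e / 2 + 1 / 4)) / (1 / 2 - e))
  have ra' := tr_le_one ((a - (e / 2 + 1 / 4)) / (1 / 2 - e))
  have rb := tr_nonneg ((b - (e / 2 + 1 / 4)) / (1 / 2 - e))
  have rb' := tr_le_one ((b - (e / 2 + 1 / 4)) / (1 / 2 - e))
  obtain ⟨ha1, ha2⟩ := abs_le.1 ha
  obtain ⟨hb1, hb2⟩ := abs_le.1 hb
  refine ⟨?_, ?_, ?_, ?_, ?_, ?_, ?_, ?_, ?_⟩ <;> rintro rfl
  · exact key _ A0 A1 (by simp [gf]; positivity)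
  · refine key _ (by push_cast; positivity) (by push_cast; nlinarith) ?_
    show |α * a - _| ≤ _
    push_cast
    rw [abs_le]; constructor <;> nlinarith
  · refine key _ X0 X1 ?_
    show |a - _| ≤ _
    rw [abs_le]; constructor <;> linarith
  · refine key _ (by push_cast; positivity) (by push_cast; exact min_le_right _ _) ?_
    show |min (a + b) 1 - _| ≤ _
    push_cast
    refine le_trans (abs_min_sub_min_le_max _ _ _ _) (max_le ?_ (by simp; positivity))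
    rw [abs_le]; constructor <;> linarith
  · refine key _ (by push_cast; exact le_max_right _ _)
      (by push_cast; exact max_le (by linarith) zero_le_one) ?_
    show |max (a - b) 0 - _| ≤ _
    push_cast
    refine le_trans (abs_max_sub_max_le_abs _ _ _) ?_
    rw [abs_le]; constructor <;> linarith
  · refine ⟨fun hh => k1 (tr_one ((one_le_div E0).2 ?_)),
      fun hh => k0 (tr_zero (div_nonpos_of_nonpos_of_nonneg ?_ E0.le))⟩
    · have : (a' : ℝ) < b' - e := by exact_mod_cast hh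
      linarith
    · have : (b' : ℝ) + e < a' := by exact_mod_cast hh
      linarith
  · refine ⟨fun hh => k1 ?_, fun hh => k0 ?_⟩ <;> show max (rp e a) (rp e b) = _
    · rcases hh with hh | hh
      · rw [r1 _ _ ha hh]; exact max_eq_left rb'
      · rw [r1 _ _ hb hh]; exact max_eq_right ra'
    · rw [r0 _ _ ha hh.1, r0 _ _ hb hh.2, max_self]
  · refine ⟨fun hh => k1 ?_, fun hh => k0 ?_⟩ <;> show min (rp e a) (rp e b) = _
    · rw [r1 _ _ ha hh.1, r1 _ _ hb hh.2, min_self]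
    · rcases hh with hh | hh
      · rw [r0 _ _ ha hh]; exact min_eq_left rb
      · rw [r0 _ _ hb hh]; exact min_eq_right ra
  · refine ⟨fun hh => k1 ?_, fun hh => k0 ?_⟩ <;> show 1 - rp e a = _
    · rw [r0 _ _ ha hh, sub_zero]
    · rw [r1 _ _ ha hh, sub_self]

end Pool.Agent.PP.Amp
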