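import Pool.Agent.MP_13199e_lc.Amp.Main
import Pool.Agent.MP_13199e_lc.Amp.ExpN
import Pool.Agent.MP_13199e_lc.Amp.Sel

/-! Amplifier: a linear size reduction from generalized circuits to the block problem. -/

set_option autoImplicit false

namespace Pool.Agent.PP.Amp
open Pool.Agent.MP_13199e_lc Pool.Agent.PolyT Pool.Agent.H82 Finset

def RR (C : GCirc) : List ℕ := idx (C.length.bits ++ [false, false, false])

theorem RR_length (C : GCirc) : (RR C).length = C.length.size + 3 := by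
  simp [RR, Nat.size_eq_bits_len]

theorem p_RR : PolyT.Poly RR :=
  p_idx ((PolyT.Poly.bits PolyT.Poly.id.length).append (PolyT.Poly.const _))

theorem lt_nodes (C : GCirc) : C.length < 16 ^ ((RR C).length / 4) := by
  rw [RR_length, show 16 = 2 ^ 4 from rfl, ← pow_mul]
  exact lt_of_lt_of_le (Nat.lt_size_self _) (Nat.pow_le_pow_right two_pos (by omega))

theorem nodes_le {C : GCirc} (h : 0 < C.length) : 16 ^ ((RR C).length / 4) ≤ 16 * C.length := by
  have h1 := Nat.size_pos.2 h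
  have h2 : 2 ^ (C.length.size - 1) ≤ C.length := Nat.lt_size.1 (by omega)
  calc 16 ^ ((RR C).length / 4) = 2 ^ (4 * ((RR C).length / 4)) := by rw [pow_mul]; rfl
    _ ≤ 2 ^ (4 + (C.length.size - 1)) := Nat.pow_le_pow_right two_pos (by rw [RR_length]; omega)
    _ ≤ _ := by rw [pow_add]; omega

theorem p_nodes : PolyT.Poly fun C : GCirc => List.range (16 ^ ((RR C).length / 4)) := by
  have := p_RR
  refine PolyT.Poly.range (PolyT.Poly.congr (f := fun C => pw (RR C) ((RR C).length / 4))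
    (by fun_prop) fun C => pw_eq (by omega))
    (F := fun C : GCirc => N487b59b3.bitEncode (0 :: C.flatMap fun _ => List.range 16))
    (show PolyT.Poly _ by fun_prop) fun C => le_trans ?_ (length_le_enc _)
  rw [List.length_cons, length_flatMap_const _ 16 fun _ => List.length_range]
  rcases C with _ | ⟨g, C⟩
  · simp [RR_length]
  · have := nodes_le (C := g :: C) (Nat.succ_pos _)
    omega

theorem p_bits {α : Type} [N487b59b3 α] {k : α → ℕ} {q : α → ℚ} (hk : PolyT.Poly k)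
    (hq : PolyT.Poly q) : ∀ β, PolyT.Poly fun a => bits (k a) (q a) β
  | none => hq
  | some _ => PolyT.Poly.ite (hk.eq (p_const _)) (p_const _) (p_const _)

/-- A generalized circuit, padded with constant gates, with the expander. -/
noncomputable def src (k : ℕ) : Src GCirc (Fin k → Mv) (Option (Fin 9)) where
  n C := 16 ^ ((RR C).length / 4)
  st C := ⟨fun v => (C.getD v (0, 0, 0, 0)).2.2.1, fun v => (C.getD v (0, 0, 0, 0)).2.2.2,
    fun w => rnN (RR C) (List.ofFn w).reverse, fun w => rnN (RR C) (List.ofFn w)⟩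
  ty C v := bits (C.getD v (0, 0, 0, 0)).1 (C.getD v (0, 0, 0, 0)).2.1
  pn := p_nodes
  pa := by fun_prop
  pb := by fun_prop
  pp _ := p_rnN (p_RR.comp PolyT.Poly.id.fst) _ PolyT.Poly.id.snd
  pq _ := p_rnN (p_RR.comp PolyT.Poly.id.fst) _ PolyT.Poly.id.snd
  pt := p_bits (by fun_prop) (by fun_prop)

theorem getD_wf {C : GCirc} (h : GWf C) (v : ℕ) : Wf1 C.length (C.getD v (0, 0, 0, 0)) := by
  rw [List.getD_eq_getElem?_getD]
  cases hv : C[v]? with
  | none => exact ⟨by norm_num, le_rfl, zero_le_one, List.length_pos_iff.2 h.1,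
      List.length_pos_iff.2 h.1⟩
  | some g => exact h.2 g (List.mem_of_getElem? hv)

/-- The number `min k M / M`. -/
def frac (M k : ℕ) : ℚ := ((List.range (M + 1)).map fun j : ℕ => (j : ℚ) / M).getD (min k M) 0

theorem frac_eq {M : ℕ} (hM : 0 < M) (k : ℕ) : (frac M k : ℝ) = tr ((k : ℝ) / M) := by
  have hM' : (0:ℝ) < M := by exact_mod_cast hM
  have : frac M k = (min k M : ℕ) / M := by
    simp [frac, List.getD_eq_getElem?_getD]
  rw [this, tr, max_eq_left (by positivity)]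
  push_cast
  rw [← min_div_div_right hM'.le, div_self hM'.ne']

/-- The statement of the amplifier. -/
def Amplifies (ε₀ δ₀ η : ℚ) : Prop :=
  ∃ (s K : ℕ) (ε : ℚ) (f : GCirc → GCirc) (g : GCirc × List ℚ → List ℚ), 0 < s ∧ 0 < ε ∧
    PolyT.Poly f ∧ PolyT.Poly g ∧ ∀ C, GWf C → GWf (f C) ∧ s ∣ (f C).length ∧
      (f C).length ≤ K * C.length ∧ ∀ x, BSol ε η s (f C) x → GSol ε₀ δ₀ C (g (C, x))

theorem amp_small {ε₀ δ₀ η : ℚ} (h0 : 0 < ε₀) (h1 : ε₀ < 1 / 2) (hδ : 0 < δ₀) (hη : 0 < η) :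
    Amplifies ε₀ δ₀ η := by
  classical
  have E1 : ((ε₀ : ℚ) : ℝ) < ((1 / 2 : ℚ) : ℝ) := by exact_mod_cast h1
  have hρ : (0:ℝ) < min (ε₀ / 3 : ℝ) (1 - 2 * ε₀) :=
    lt_min (by positivity) (by push_cast at E1; linarith)
  have hl : (0:ℝ) < η * (δ₀ / 16 : ℚ) / 8 := by positivity
  obtain ⟨k, hk⟩ := expander _ hl
  obtain ⟨s, M, ε, f, g, hs, hM, hε, pf, pg, h⟩ := gen (FF ε₀) (FF_cont _)
    (fun _ _ _ => tr_nonneg _) (fun _ _ _ => tr_le_one _) η (δ₀ / 16) _ _ hη (by positivity) hρ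
    hl.le le_rfl (src k)
  refine ⟨s, 16 * s, ε, f, fun z => (idx z.1).map fun c => frac M ((g z).getD c 0), hs, hε, pf,
    by unfold frac; fun_prop, fun C hC => ?_⟩
  have hN := List.length_pos_iff.2 hC.1
  have hlt := lt_nodes C
  have hw := getD_wf hC
  obtain ⟨a1, a2, a3⟩ := h C ⟨Nat.pow_pos (by norm_num), fun v _ =>
    ⟨(hw v).2.2.2.1.trans hlt, (hw v).2.2.2.2.trans hlt, fun β => by
      rcases β with _ | j
      · exact ⟨(hw v).2.1, (hw v).2.2.1⟩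
      · simp only [src, bits]; split_ifs <;> norm_num⟩, hk (RR C)⟩
  refine ⟨a1, a2 ▸ Dvd.intro_left _ rfl, ?_, fun x hx => ?_⟩
  · rw [a2, mul_right_comm]; exact Nat.mul_le_mul_right _ (nodes_le hN)
  obtain ⟨y, y0, y1, y2⟩ := a3 x hx
  have f01 : ∀ j, 0 ≤ frac M j ∧ frac M j ≤ 1 := fun j =>
    ⟨by exact_mod_cast (frac_eq hM j).symm ▸ tr_nonneg _,
      by exact_mod_cast (frac_eq hM j).symm ▸ tr_le_one _⟩
  have hv : ∀ c < C.length, ((idx C).map fun c => frac M ((g (C, x)).getD c 0)).getD c 0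
      = frac M ((g (C, x)).getD c 0) := fun c hc => by
    simp [idx, List.getD_eq_getElem?_getD, hc]
  have hcl : ∀ c < C.length, |(frac M ((g (C, x)).getD c 0) : ℝ) - y c|
      ≤ min (ε₀ / 3 : ℝ) (1 - 2 * ε₀) / 4 := fun c hc => by
    have := tr_lip (((g (C, x)).getD c 0 : ℝ) / M) (y c)
    rw [tr_id (y0 c).1 (y0 c).2, ← frac_eq hM] at this
    exact this.trans (y1 c (hc.trans hlt))
  refine ⟨⟨by simp, fun q hq => ?_⟩, ?_⟩
  · obtain ⟨c, -, rfl⟩ := List.mem_map.1 hq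
    exact f01 _
  have y3 : ((δ₀ / 16 : ℚ) : ℝ) * ((src k).n C : ℕ) ≤ δ₀ * C.length := by
    have : (((src k).n C : ℕ) : ℝ) ≤ 16 * C.length := by exact_mod_cast nodes_le hN
    have hδ' : (0:ℝ) < δ₀ := by exact_mod_cast hδ
    push_cast; nlinarith
  rw [← ncard_fin _ fun c => 2 * min (ε₀ / 3 : ℝ) (1 - 2 * ε₀) < |y c - FF ε₀
    (fun β => (src k).ty C c β) (y (((src k).st C).a c)) (y (((src k).st C).b c))|] at y2
  suffices y4 : {c | c < C.length ∧
      ¬GSat ε₀ C ((idx C).map fun c => frac M ((g (C, x)).getD c 0)) c} ⊆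
      {c | c < (src k).n C ∧ 2 * min (ε₀ / 3 : ℝ) (1 - 2 * ε₀) < |y c - FF ε₀
        (fun β => (src k).ty C c β) (y (((src k).st C).a c)) (y (((src k).st C).b c))|} by
    have y5 := (Nat.cast_le (α := ℝ)).2 (Set.ncard_le_ncard y4
      ((Set.finite_lt_nat ((src k).n C)).subset fun _ h => And.left h))
    exact_mod_cast y5.trans (y2.trans y3)
  rintro c ⟨hc, hb⟩
  refine ⟨hc.trans hlt, not_le.1 fun hle => hb fun q hq => ?_⟩
  have e : C.getD c (0, 0, 0, 0) = q := by rw [List.getD_eq_getElem?_getD, hq]; rfl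
  have w := hw c
  simp only [src, e] at hle w
  rw [hv _ w.2.2.2.1, hv _ w.2.2.2.2, hv _ hc]
  exact sel h0 h1 hρ (by linarith [min_le_left (ε₀ / 3 : ℝ) (1 - 2 * ε₀)]) (min_le_right _ _) w.1
    w.2.1 w.2.2.1 (f01 _).1 (f01 _).2 (f01 _).1 (hcl _ w.2.2.2.1) (hcl _ w.2.2.2.2) (hcl _ hc) hle

theorem amp {ε₀ δ₀ η : ℚ} (h0 : 0 < ε₀) (hδ : 0 < δ₀) (hη : 0 < η) : Amplifies ε₀ δ₀ η := by
  rcases lt_or_ge ε₀ (1 / 2) with h1 | h1
  · exact amp_small h0 h1 hδ hη
  obtain ⟨s, K, ε, f, g, hs, hε, pf, -, h⟩ :=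
    amp_small (ε₀ := 1 / 4) (by norm_num) (by norm_num) hδ hη
  refine ⟨s, K, ε, f, fun z => z.1.map fun _ => 1 / 2, hs, hε, pf, by fun_prop, fun C hC =>
    ⟨(h C hC).1, (h C hC).2.1, (h C hC).2.2.1, fun x _ => ⟨⟨by simp, fun q hq => ?_⟩, ?_⟩⟩⟩
  · obtain ⟨c, -, rfl⟩ := List.mem_map.1 hq
    norm_num
  have hv : ∀ c < C.length, (C.map fun _ => (1 / 2 : ℚ)).getD c 0 = 1 / 2 := fun c hc => by
    simp [List.getD_eq_getElem?_getD, hc]
  rw [Set.eq_empty_of_forall_notMem (s := {c | c < C.length ∧ ¬GSat ε₀ C _ c})]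
  · simp only [Set.ncard_empty, Nat.cast_zero]; positivity
  rintro c ⟨hc, hb⟩
  refine hb fun q hq => ?_
  obtain ⟨-, w0, w1, w2, w3⟩ := hC.2 q (List.mem_of_getElem? hq)
  rw [hv _ w2, hv _ w3, hv _ hc]
  have t : ∀ T : ℚ, 0 ≤ T → T ≤ 1 → |1 / 2 - T| ≤ ε₀ := fun T a b => by
    rw [abs_le]; constructor <;> linarith
  have t0 : |(1 / 2 : ℚ)| ≤ ε₀ := by simpa using t 0 le_rfl zero_le_one
  have t1 := t 1 zero_le_one le_rfl
  exact ⟨fun _ => t _ w0 w1, fun _ => t _ (by positivity) (by linarith),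
    fun _ => t _ (by norm_num) (by norm_num), fun _ => t _ (by norm_num) (by norm_num),
    fun _ => t _ (by norm_num) (by norm_num), fun _ => ⟨fun _ => t1, fun _ => t0⟩,
    fun _ => ⟨fun _ => t1, fun _ => t0⟩, fun _ => ⟨fun _ => t1, fun _ => t0⟩,
    fun _ => ⟨fun _ => t1, fun _ => t0⟩⟩

end Pool.Agent.PP.Amp

namespace Pool.Agent.PP
open Pool.Agent.MP_13199e_lc Pool.Agent.PolyT

theorem optGap_of (h : PolyPCP) : OptGap := by
  obtain ⟨ε₀, δ₀, h0, hδ, f₀, g₀, p₀, q₀, h⟩ := h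
  intro η hη
  obtain ⟨s, K, ε, f, g, hs, hε, p, q, h'⟩ := Amp.amp h0 hδ hη
  rw [← poly_iff] at p₀ q₀
  refine ⟨s, ε, hs, hε, fun I => f (f₀ I), fun z => g₀ (z.1, g (f₀ z.1, z.2)),
    (poly_iff _).1 (by fun_prop), (poly_iff _).1 (by fun_prop), fun I hI => ?_⟩
  obtain ⟨a1, -, a2⟩ := h I hI
  obtain ⟨b1, b2, -, b3⟩ := h' _ a1
  exact ⟨b1, b2, fun x hx => a2 _ (b3 x hx)⟩

end Pool.Agent.PP
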